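import Pool.Agent.U253.EEA.Few2

/-!
# All `Sym^k ⊗ det^l` from the first few
-/

set_option autoImplicit false

namespace Pool.Agent.U253.EEA

open Filter Topology Complex Set Pool.Agent.N210.FV Pool.Agent.N210.FW Pool.Agent.N845.SP

/-- the logarithm of the inverse Euler factor of `Sym^k ⊗ det^l` -/
noncomputable def El2 (w x : ℕ → ℂ) (k : ℕ) (l : ℤ) (p : ℕ) (s : ℂ) : ℂ :=
  ∑ i ∈ Finset.range (k + 1), log (1 - wx w x k l p i * (p : ℂ) ^ (-s))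

section

variable {w x : ℕ → ℂ} {p : ℕ}

theorem wx_norm (hw : ‖w p‖ = 1) (hx : ‖x p‖ = 1) (k : ℕ) (l : ℤ) (i : ℕ) : ‖wx w x k l p i‖ = 1 := by
  unfold wx
  rw [norm_mul, norm_zpow, hw, one_zpow, bs_norm hx, one_mul]

theorem wp_lt (hp : p.Prime) (hw : ‖w p‖ = 1) (hx : ‖x p‖ = 1) (k : ℕ) (l : ℤ) (i : ℕ) {s : ℂ}
    (hs : 1 < s.re) : ‖wx w x k l p i * (p : ℂ) ^ (-s)‖ < 1 := by
  rw [norm_mul, wx_norm hw hx, one_mul, pz_norm hp]
  exact Real.rpow_lt_one_of_one_lt_of_neg (by exact_mod_cast hp.one_lt) (by linarith)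

theorem exp_El2 (hp : p.Prime) (hw : ‖w p‖ = 1) (hx : ‖x p‖ = 1) (k : ℕ) (l : ℤ) {s : ℂ}
    (hs : 1 < s.re) : exp (-(El2 w x k l p s)) =
      ∏ i ∈ Finset.range (k + 1), (1 - wx w x k l p i * (p : ℂ) ^ (-s))⁻¹ := by
  unfold El2
  rw [← Finset.sum_neg_distrib, exp_sum]
  refine Finset.prod_congr rfl fun i _ => ?_
  rw [exp_neg, exp_log (fac_ne (wp_lt hp hw hx k l i hs))]

theorem El2_hasSum (hp : p.Prime) (hw : ‖w p‖ = 1) (hx : ‖x p‖ = 1) (k : ℕ) (l : ℤ) {s : ℂ}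
    (hs : 1 < s.re) :
    HasSum (fun n : ℕ => (w p ^ n) ^ ((k : ℤ) + 2 * l) * ch k (x p ^ n) * ((p : ℂ) ^ (-s)) ^ n / n)
      (-(El2 w x k l p s)) := by
  unfold El2
  rw [← Finset.sum_neg_distrib]
  have h1 : ∀ i ∈ Finset.range (k + 1), HasSum (fun n : ℕ => (wx w x k l p i * (p : ℂ) ^ (-s)) ^ n / n)
      (-log (1 - wx w x k l p i * (p : ℂ) ^ (-s))) := fun i _ =>
    hasSum_taylorSeries_neg_log (wp_lt hp hw hx k l i hs)
  refine (hasSum_sum h1).congr_fun ?_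
  intro n
  rw [← ps_wx]
  unfold ps
  rw [Finset.sum_mul, Finset.sum_div]
  refine Finset.sum_congr rfl fun i _ => ?_
  rw [mul_pow]

theorem El2_rel (hp : p.Prime) (hw : ‖w p‖ = 1) (hx : ‖x p‖ = 1) {k m : ℕ} {l : ℤ} {c : ℕ → ℤ}
    {l' : ℕ → ℤ}
    (hc : ∀ n : ℕ, 1 ≤ n → (w p ^ n) ^ ((k : ℤ) + 2 * l) * ch k (x p ^ n) =
      ∑ j ∈ Finset.range m, (c j : ℂ) * ((w p ^ n) ^ ((j : ℤ) + 2 * l' j) * ch j (x p ^ n))) {s : ℂ}
    (hs : 1 < s.re) :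
    El2 w x k l p s = ∑ j ∈ Finset.range m, (c j : ℂ) * El2 w x j (l' j) p s := by
  have h1 := El2_hasSum hp hw hx k l hs
  have h2 : HasSum (fun n : ℕ => ∑ j ∈ Finset.range m, (c j : ℂ) *
      ((w p ^ n) ^ ((j : ℤ) + 2 * l' j) * ch j (x p ^ n) * ((p : ℂ) ^ (-s)) ^ n / n))
      (∑ j ∈ Finset.range m, (c j : ℂ) * (-(El2 w x j (l' j) p s))) :=
    hasSum_sum fun j _ => (El2_hasSum hp hw hx j (l' j) hs).mul_left _
  have h3 : (fun n : ℕ => (w p ^ n) ^ ((k : ℤ) + 2 * l) * ch k (x p ^ n) *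
      ((p : ℂ) ^ (-s)) ^ n / n) =
      fun n : ℕ => ∑ j ∈ Finset.range m, (c j : ℂ) *
      ((w p ^ n) ^ ((j : ℤ) + 2 * l' j) * ch j (x p ^ n) * ((p : ℂ) ^ (-s)) ^ n / n) := by
    funext n
    rcases Nat.eq_zero_or_pos n with h0 | h0
    · subst h0
      simp
    · rw [hc n h0, Finset.sum_mul, Finset.sum_div]
      refine Finset.sum_congr rfl fun j _ => ?_
      ring
  rw [h3] at h1
  have h4 := h1.unique h2
  simp only [mul_neg, Finset.sum_neg_distrib] at h4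
  exact neg_injective h4

end

/-- the Euler product does not vanish -/
theorem euler_ne2 {S : Finset ℕ} {n : ℕ} {β : ℕ → ℕ → ℂ}
    (hβ : ∀ p : ℕ, p.Prime → p ∉ S → ∀ i, ‖β p i‖ = 1)
    {s : ℂ} (hs : 1 < s.re) {L : ℂ} (h : Tendsto (fun X : ℕ =>
    ∏ p ∈ (Finset.range X).filter (fun p => p.Prime ∧ p ∉ S),
      ∏ i ∈ Finset.range n, (1 - β p i * (p : ℂ) ^ (-s))⁻¹) atTop (𝓝 L)) : L ≠ 0 := by
  have hsum : Summable fun n : ℕ => (n : ℝ) ^ (-s.re) := by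
    have := Real.summable_nat_rpow (p := -s.re)
    rw [this]
    linarith
  set C : ℝ := ∑' n : ℕ, (n : ℝ) ^ (-s.re) with hC
  have h1 : ∀ X : ℕ, Real.exp (-((n : ℕ) * C)) ≤
      ‖∏ p ∈ (Finset.range X).filter (fun p => p.Prime ∧ p ∉ S),
        ∏ i ∈ Finset.range n, (1 - β p i * (p : ℂ) ^ (-s))⁻¹‖ := by
    intro X
    have h2 : ∀ p ∈ (Finset.range X).filter (fun p => p.Prime ∧ p ∉ S),
        Real.exp (-((n : ℕ) * (p : ℝ) ^ (-s.re))) ≤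
          ‖∏ i ∈ Finset.range n, (1 - β p i * (p : ℂ) ^ (-s))⁻¹‖ := by
      intro p hp
      rw [Finset.mem_filter] at hp
      obtain ⟨-, hpp, hpS⟩ := hp
      have h3 : ∀ i ∈ Finset.range n, Real.exp (-(p : ℝ) ^ (-s.re)) ≤
          ‖(1 - β p i * (p : ℂ) ^ (-s))⁻¹‖ := by
        intro i _
        have h4 : ‖1 - β p i * (p : ℂ) ^ (-s)‖ ≤ Real.exp ((p : ℝ) ^ (-s.re)) := by
          refine (norm_sub_le _ _).trans ?_
          rw [norm_one, norm_mul, hβ p hpp hpS, one_mul, pz_norm hpp]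
          have := Real.add_one_le_exp ((p : ℝ) ^ (-s.re))
          linarith
        have hlt : ‖β p i * (p : ℂ) ^ (-s)‖ < 1 := by
          rw [norm_mul, hβ p hpp hpS, one_mul, pz_norm hpp]
          exact Real.rpow_lt_one_of_one_lt_of_neg (by exact_mod_cast hpp.one_lt) (by linarith)
        have h5 : 0 < ‖1 - β p i * (p : ℂ) ^ (-s)‖ := norm_pos_iff.2 (fac_ne hlt)
        rw [norm_inv, Real.exp_neg]
        exact inv_anti₀ h5 h4
      rw [norm_prod]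
      calc Real.exp (-((n : ℕ) * (p : ℝ) ^ (-s.re))) =
          ∏ i ∈ Finset.range n, Real.exp (-(p : ℝ) ^ (-s.re)) := by
            rw [Finset.prod_const, Finset.card_range, ← Real.exp_nat_mul]
            congr 1
            ring
        _ ≤ _ := Finset.prod_le_prod (fun _ _ => (Real.exp_pos _).le) h3
    rw [norm_prod]
    calc Real.exp (-((n : ℕ) * C)) ≤
        ∏ p ∈ (Finset.range X).filter (fun p => p.Prime ∧ p ∉ S),
          Real.exp (-((n : ℕ) * (p : ℝ) ^ (-s.re))) := by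
          rw [← Real.exp_sum, Real.exp_le_exp, Finset.sum_neg_distrib, neg_le_neg_iff,
            ← Finset.mul_sum]
          refine mul_le_mul_of_nonneg_left ?_ (by positivity)
          exact hsum.sum_le_tsum _ fun n _ => by positivity
      _ ≤ _ := Finset.prod_le_prod (fun _ _ => (Real.exp_pos _).le) h2
  have h2 := ge_of_tendsto' h.norm h1
  intro h0
  rw [h0, norm_zero] at h2
  exact absurd h2 (not_le.2 (Real.exp_pos _))

theorem Half.toNice {S : Finset ℕ} {w x : ℕ → ℂ} (hw : ∀ p : ℕ, p.Prime → p ∉ S → ‖w p‖ = 1)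
    (hx : ∀ p : ℕ, p.Prime → p ∉ S → ‖x p‖ = 1) {k : ℕ} {l : ℤ} {N D : ℂ → ℂ}
    (h : Half S (k + 1) (wx w x k l) N D) : Nice False S (El2 w x k l) 0 N D := by
  obtain ⟨C, hC⟩ := h.order
  refine ⟨h.diffN, h.diffD, ⟨max C 0, le_max_right _ _, fun s => ?_⟩, fun s hs h0 => ?_, h.ne,
    fun s hs => ?_, fun hP => hP.elim⟩
  · have h1 : Real.exp (C * (1 + ‖s‖) ^ (3 / 2 : ℝ)) ≤
        Real.exp (max C 0 * (1 + ‖s‖) ^ (3 / 2 : ℝ)) := by
      gcongr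
      exact le_max_left _ _
    exact ⟨(hC s).1.trans h1, (hC s).2.trans h1⟩
  · have h1 := euler_ne2 (fun p hp hpS i => wx_norm (hw p hp hpS) (hx p hp hpS) k l i) hs
      (h.euler s hs)
    apply h1
    rw [h0, zero_div]
  · refine (h.euler s hs).congr fun X => ?_
    refine Finset.prod_congr rfl fun p hp => ?_
    rw [Finset.mem_filter] at hp
    rw [exp_El2 hp.2.1 (hw p hp.2.1 hp.2.2) (hx p hp.2.1 hp.2.2) k l hs]

/-- integral relations with the parity -/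
theorem par_rel {V : Finset ℝ} (hneg : ∀ v ∈ V, -v ∈ V)
    (hV : ∀ v ∈ V, ∃ (u : ℂ) (d : ℕ), 0 < d ∧ u ^ d = 1 ∧ u + u⁻¹ = (v : ℂ) ∧
      ∀ n : ℕ, 1 ≤ n → ∃ w ∈ V, u ^ n + (u ^ n)⁻¹ = (w : ℂ)) (k : ℕ) :
    ∃ c : ℕ → ℤ, (∀ j : ℕ, j % 2 ≠ k % 2 → c j = 0) ∧
      ∀ v ∈ V, xr k v = ∑ j ∈ Finset.range V.card, (c j : ℝ) * xr j v := by
  classical
  obtain ⟨P, hP, hPd, hPe⟩ := int_rel hV
  obtain ⟨c, hc⟩ := char_rel hP k
  rw [hPd] at hc
  have hroot : ∀ v ∈ V, Polynomial.aeval v P = 0 := by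
    intro v hv
    rw [hPe]
    exact Finset.prod_eq_zero hv (sub_self v)
  refine ⟨fun j => if j % 2 = k % 2 then c j else 0, fun j hj => if_neg hj, fun v hv => ?_⟩
  have h1 := hc v (hroot v hv)
  have h2 := hc (-v) (hroot (-v) (hneg v hv))
  simp only [xr_neg] at h2
  have h3 : xr k v = ∑ j ∈ Finset.range V.card, (c j : ℝ) * ((-1) ^ (k + j) * xr j v) := by
    have h4 : xr k v = (-1) ^ k * ((-1) ^ k * xr k v) := by
      rw [← mul_assoc, ← mul_pow]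
      simp
    rw [h4, h2, Finset.mul_sum]
    refine Finset.sum_congr rfl fun j _ => ?_
    rw [pow_add]
    ring
  have h4 : 2 * xr k v = 2 * ∑ j ∈ Finset.range V.card,
      (((if j % 2 = k % 2 then c j else 0 : ℤ)) : ℝ) * xr j v := by
    have h5 : 2 * xr k v = xr k v + xr k v := by ring
    rw [h5]
    nth_rewrite 1 [h1]
    rw [h3, ← Finset.sum_add_distrib, Finset.mul_sum]
    refine Finset.sum_congr rfl fun j _ => ?_
    by_cases hj : j % 2 = k % 2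
    · have h6 : Even (k + j) := by
        rw [Nat.even_iff]
        omega
      rw [if_pos hj, h6.neg_one_pow]
      ring
    · have h6 : Odd (k + j) := by
        rw [Nat.odd_iff]
        omega
      rw [if_neg hj, h6.neg_one_pow]
      push_cast
      ring
  linarith

/-- **all `Sym^k ⊗ det^l`** from the first few -/
theorem core2 {S : Finset ℕ} {w x : ℕ → ℂ} (hw : ∀ p : ℕ, p.Prime → p ∉ S → ‖w p‖ = 1)
    (hx0 : ∀ p : ℕ, p.Prime → p ∉ S → x p ≠ 0) {K : ℕ} {N D : ℕ → ℤ → ℂ → ℂ} (V : Finset ℝ)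
    (hVK : 2 * V.card + 1 ≤ K)
    (hcl : ∀ p : ℕ, p.Prime → p ∉ S → ∀ n : ℕ, 1 ≤ n → ∃ y : ℝ,
      x p ^ n + (x p ^ n)⁻¹ = (y : ℂ) ∧ (y = 0 ∨ ∃ v ∈ V, y = v ∨ y = -v))
    (hN : ∀ k ≤ K, ∀ l : ℤ, Half S (k + 1) (wx w x k l) (N k l) (D k l)) :
    (∀ p : ℕ, p.Prime → p ∉ S → 0 < orderOf (x p) ∧ orderOf (x p) ≤ 4 * V.card + 1) ∧
    ∀ (k : ℕ) (l : ℤ), ∃ N' D', Nice False S (El2 w x k l) 0 N' D' := by
  classical
  set V₂ : Finset ℝ := {0} ∪ (V ∪ V.image fun v => -v) with hV₂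
  have hmem₂ : ∀ y : ℝ, y ∈ V₂ ↔ (y = 0 ∨ ∃ v ∈ V, y = v ∨ y = -v) := by
    intro y
    rw [hV₂, Finset.mem_union, Finset.mem_singleton, Finset.mem_union, Finset.mem_image]
    constructor
    · rintro (h | h | ⟨v, hv, h⟩)
      · exact Or.inl h
      · exact Or.inr ⟨y, h, Or.inl rfl⟩
      · exact Or.inr ⟨v, hv, Or.inr h.symm⟩
    · rintro (h | ⟨v, hv, h | h⟩)
      · exact Or.inl h
      · exact Or.inr (Or.inl (h ▸ hv))
      · exact Or.inr (Or.inr ⟨v, hv, h.symm⟩)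
  have hcard : V₂.card ≤ 2 * V.card + 1 := by
    refine (Finset.card_union_le _ _).trans ?_
    have h1 := Finset.card_union_le V (V.image fun v => -v)
    have h2 := Finset.card_image_le (s := V) (f := fun v : ℝ => -v)
    rw [Finset.card_singleton]
    omega
  have hneg₂ : ∀ y ∈ V₂, -y ∈ V₂ := by
    intro y hy
    rw [hmem₂] at hy ⊢
    rcases hy with h | ⟨v, hv, h | h⟩
    · exact Or.inl (by rw [h, neg_zero])
    · exact Or.inr ⟨v, hv, Or.inr (by rw [h])⟩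
    · exact Or.inr ⟨v, hv, Or.inl (by rw [h, neg_neg])⟩
  have hcl₂ : ∀ p : ℕ, p.Prime → p ∉ S → ∀ n : ℕ, 1 ≤ n → ∃ y ∈ V₂,
      x p ^ n + (x p ^ n)⁻¹ = (y : ℂ) := by
    intro p hp hpS n hn
    obtain ⟨y, hy, hy2⟩ := hcl p hp hpS n hn
    exact ⟨y, (hmem₂ y).2 hy2, hy⟩
  have hord : ∀ p : ℕ, p.Prime → p ∉ S → 0 < orderOf (x p) ∧ orderOf (x p) / 2 + 1 ≤ V₂.card :=
    fun p hp hpS => root_unity (hx0 p hp hpS) (hcl₂ p hp hpS)
  have hnorm : ∀ p : ℕ, p.Prime → p ∉ S → ‖x p‖ = 1 := fun p hp hpS =>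
    norm_eq_one_of_pow_eq_one (pow_orderOf_eq_one (x p)) (hord p hp hpS).1.ne'
  refine ⟨fun p hp hpS => ⟨(hord p hp hpS).1, by have := (hord p hp hpS).2; omega⟩,
    fun k l => ?_⟩
  -- the values which are taken
  set V' : Finset ℝ := V₂.filter fun v => ∃ p n : ℕ, p.Prime ∧ p ∉ S ∧ 1 ≤ n ∧
    (x p ^ n + (x p ^ n)⁻¹ = (v : ℂ) ∨ x p ^ n + (x p ^ n)⁻¹ = ((-v : ℝ) : ℂ)) with hV'
  have hV'c : V'.card ≤ 2 * V.card + 1 := (Finset.card_filter_le _ _).trans hcard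
  have hneg' : ∀ v ∈ V', -v ∈ V' := by
    intro v hv
    obtain ⟨h1, p, n, hp, hpS, hn, h2⟩ := Finset.mem_filter.1 hv
    refine Finset.mem_filter.2 ⟨hneg₂ v h1, p, n, hp, hpS, hn, ?_⟩
    rw [neg_neg]
    exact h2.symm
  have hmem : ∀ p : ℕ, p.Prime → p ∉ S → ∀ n : ℕ, 1 ≤ n →
      ∃ v ∈ V', x p ^ n + (x p ^ n)⁻¹ = (v : ℂ) := by
    intro p hp hpS n hn
    obtain ⟨y, hy, hy2⟩ := hcl₂ p hp hpS n hn
    exact ⟨y, Finset.mem_filter.2 ⟨hy, p, n, hp, hpS, hn, Or.inl hy2⟩, hy2⟩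
  have hpm : ∀ p : ℕ, p.Prime → p ∉ S → ∀ n : ℕ, 1 ≤ n → ∀ m : ℕ, 1 ≤ m →
      ∃ v ∈ V', (-(x p ^ n)) ^ m + ((-(x p ^ n)) ^ m)⁻¹ = (v : ℂ) := by
    intro p hp hpS n hn m hm
    obtain ⟨v, hv, hv2⟩ := hmem p hp hpS (n * m) (Nat.mul_pos hn hm)
    rw [pow_mul] at hv2
    rcases Nat.even_or_odd m with h | h
    · exact ⟨v, hv, by rw [h.neg_pow]; exact hv2⟩
    · refine ⟨-v, hneg' v hv, ?_⟩
      rw [h.neg_pow, inv_neg, ← neg_add, hv2]
      push_cast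
      rfl
  obtain ⟨c, hc0, hc⟩ := par_rel (V := V') hneg' (by
    intro v hv
    obtain ⟨-, p, n, hp, hpS, hn, h2 | h2⟩ := Finset.mem_filter.1 hv
    · refine ⟨x p ^ n, orderOf (x p), (hord p hp hpS).1, ?_, h2, fun m hm => ?_⟩
      · rw [← pow_mul, mul_comm, pow_mul, pow_orderOf_eq_one, one_pow]
      · obtain ⟨u, hu, hu2⟩ := hmem p hp hpS (n * m) (Nat.mul_pos hn hm)
        exact ⟨u, hu, by rw [← pow_mul]; exact hu2⟩
    · refine ⟨-(x p ^ n), 2 * orderOf (x p), by have := (hord p hp hpS).1; omega, ?_, ?_,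
        fun m hm => hpm p hp hpS n hn m hm⟩
      · rw [pow_mul, neg_sq, ← pow_mul, ← pow_mul]
        have : n * (2 * orderOf (x p)) = orderOf (x p) * (n * 2) := by ring
        rw [this, pow_mul, pow_orderOf_eq_one, one_pow]
      · rw [inv_neg, ← neg_add, h2]
        push_cast
        ring) k
  set l' : ℕ → ℤ := fun j => l + ((k : ℤ) - j) / 2 with hl'
  obtain ⟨N', D', hN'⟩ := Nice.sum (n := V'.card) (E := fun j => El2 w x j (l' j)) (g := fun _ => 0)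
    (fun j hj => (hN j (by omega) (l' j)).toNice hw hnorm) c
  have hg : ∑ j ∈ Finset.range V'.card, c j • (0 : ℤ × ℤ) = 0 := by simp
  rw [hg] at hN'
  refine ⟨N', D', hN'.congr fun p hp hpS s hs => ?_⟩
  symm
  refine El2_rel hp (hw p hp hpS) (hnorm p hp hpS) (fun n hn => ?_) hs
  obtain ⟨v, hv, hv2⟩ := hmem p hp hpS n hn
  have h4 : ∀ j, ch j (x p ^ n) = (xr j v : ℂ) := fun j =>
    ch_eq (pow_ne_zero _ (hx0 p hp hpS)) hv2 j
  simp only [h4]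
  rw [hc v hv]
  push_cast
  rw [Finset.mul_sum]
  refine Finset.sum_congr rfl fun j _ => ?_
  by_cases hj : j % 2 = k % 2
  · have : (j : ℤ) + 2 * l' j = (k : ℤ) + 2 * l := by
      simp only [hl']
      omega
    rw [this]
    ring
  · rw [hc0 j hj]
    simp

end Pool.Agent.U253.EEA
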