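import Pool.Agent.U253.EEA.GL2

/-!
# Few absolute values: the archimedean parameter and the powers of the Satake parameters
-/

set_option autoImplicit false

namespace Pool.Agent.U253.EEA

open Filter Topology Complex Set Pool.Agent.N210.FV Pool.Agent.N210.FW Pool.Agent.N845.SP

theorem xr_neg (x : ℝ) : ∀ k : ℕ, xr k (-x) = (-1) ^ k * xr k x
  | 0 => by simp [xr]
  | 1 => by simp [xr]
  | k + 2 => by
    rw [xr, xr, xr_neg x (k + 1), xr_neg x k, pow_succ, pow_succ]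
    ring

/-- the odd polynomial with the roots `0`, `± v` in terms of the odd characters -/
theorem odd_rel (V : Finset ℝ) {K : ℕ} (hV : 2 * V.card + 1 ≤ K) : ∃ c : ℕ → ℝ,
    (∀ k : ℕ, k % 2 = 0 → c k = 0) ∧
    ∀ x : ℝ, x * ∏ v ∈ V, (x ^ 2 - v ^ 2) = ∑ j ∈ Finset.range (K + 1), c j * xr j x := by
  classical
  obtain ⟨c, hc⟩ := exists_coef (R := ℝ) (K + 1)
      (Polynomial.X * ∏ v ∈ V, (Polynomial.X ^ 2 - Polynomial.C (v ^ 2))) (by
    intro m hm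
    apply Polynomial.coeff_eq_zero_of_natDegree_lt
    have h1 : ∀ v ∈ V, ((Polynomial.X : Polynomial ℝ) ^ 2 - Polynomial.C (v ^ 2)).natDegree ≤ 2 := by
      intro v _
      rw [Polynomial.natDegree_X_pow_sub_C]
    have h2 : (∏ v ∈ V, ((Polynomial.X : Polynomial ℝ) ^ 2 - Polynomial.C (v ^ 2))).natDegree ≤
        2 * V.card := by
      refine (Polynomial.natDegree_prod_le _ _).trans ?_
      refine (Finset.sum_le_card_nsmul _ _ _ h1).trans ?_
      rw [smul_eq_mul]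
      omega
    have h3 := Polynomial.natDegree_mul_le (p := (Polynomial.X : Polynomial ℝ))
      (q := ∏ v ∈ V, ((Polynomial.X : Polynomial ℝ) ^ 2 - Polynomial.C (v ^ 2)))
    rw [Polynomial.natDegree_X] at h3
    omega)
  have hc' : ∀ x : ℝ, x * ∏ v ∈ V, (x ^ 2 - v ^ 2) = ∑ j ∈ Finset.range (K + 1), c j * xr j x := by
    intro x
    have := hc x
    simpa [map_prod, Polynomial.eval_prod] using this
  refine ⟨fun k => if k % 2 = 0 then 0 else c k, fun k hk => if_pos hk, fun x => ?_⟩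
  have h1 := hc' x
  have h2 := hc' (-x)
  have h3 : -x * ∏ v ∈ V, ((-x) ^ 2 - v ^ 2) = -(x * ∏ v ∈ V, (x ^ 2 - v ^ 2)) := by
    rw [neg_sq]
    ring
  rw [h3, h1] at h2
  have h4 : 2 * ∑ j ∈ Finset.range (K + 1), (if j % 2 = 0 then 0 else c j) * xr j x =
      2 * ∑ j ∈ Finset.range (K + 1), c j * xr j x := by
    have h5 : 2 * ∑ j ∈ Finset.range (K + 1), c j * xr j x =
        ∑ j ∈ Finset.range (K + 1), c j * xr j x - ∑ j ∈ Finset.range (K + 1), c j * xr j (-x) := by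
      rw [← h2]
      ring
    rw [h5, ← Finset.sum_sub_distrib, Finset.mul_sum]
    refine Finset.sum_congr rfl fun j _ => ?_
    rw [xr_neg]
    rcases Nat.even_or_odd j with hj | hj
    · rw [if_pos (Nat.even_iff.1 hj), hj.neg_one_pow]
      ring
    · rw [if_neg (by rw [Nat.odd_iff.1 hj]; norm_num), hj.neg_one_pow]
      ring
  rw [h1]
  linarith

/-- the twist -/
def tw (k : ℕ) : ℤ := -(((k : ℤ) - 1) / 2)

theorem tw_odd {k : ℕ} (hk : k % 2 = 1) : (k : ℤ) + 2 * tw k = 1 := by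
  unfold tw
  omega

theorem bd_wx {w x : ℕ → ℂ} {p : ℕ} {r₀ : ℝ} (h1 : 1 ≤ r₀) (hw : ‖w p‖ = 1) (ht : ‖x p‖ ≤ r₀)
    (ht' : ‖(x p)⁻¹‖ ≤ r₀) {k K : ℕ} (hk : k ≤ K) (l : ℤ) {i : ℕ} (hi : i < k + 1) :
    ‖wx w x k l p i‖ ≤ r₀ ^ K := by
  unfold wx
  rw [norm_mul, norm_zpow, hw, one_zpow, one_mul]
  exact bs_le h1 ht ht' hk (Finset.mem_range.2 hi)

/-- **few absolute values** -/
theorem few2 {S : Finset ℕ} {α β : ℕ → ℂ} {r : ℂ} {e f : ℤ} {K : ℕ} {N D : ℕ → ℤ → ℂ → ℂ}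
    (hα : ∀ p : ℕ, p.Prime → p ∉ S → α p ≠ 0) (hβ : ∀ p : ℕ, p.Prime → p ∉ S → β p ≠ 0)
    (hdet : ∀ p : ℕ, p.Prime → p ∉ S → ‖α p * β p‖ = 1)
    (hc : ∀ p : ℕ, p.Prime → p ∉ S →
      (starRingEnd ℂ) (α p + β p) * (α p * β p) = α p + β p)
    (hL : ∀ k ≤ K, ∀ l : ℤ, Half S (k + 1) (pk α β k l) (N k l) (D k l))
    (hF : ∀ k ≤ K, ∀ l : ℤ, FEq S (mu2 r e f k l) (mu2 r e f k (-k - l)) (N k l) (D k l)
      (N k (-k - l)) (D k (-k - l)))
    {T : Set ℕ} (hTs : Sparse T) {C₀ : ℝ}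
    (hC : ∀ p : ℕ, p.Prime → p ∉ S → p ∈ T → ‖α p‖ ≤ C₀ ∧ ‖β p‖ ≤ C₀)
    (V : Finset ℝ) (hV : 2 * V.card + 1 ≤ K)
    (hT : ∀ p : ℕ, p.Prime → p ∉ S → p ∉ T → ‖α p + β p‖ = 0 ∨ ‖α p + β p‖ ∈ V) :
    r = 0 ∧ ∀ p : ℕ, p.Prime → p ∉ S → ∀ n : ℕ, 1 ≤ n → ∃ y : ℝ,
      xs α β p ^ n + (xs α β p ^ n)⁻¹ = (y : ℂ) ∧ (y = 0 ∨ ∃ v ∈ V, y = v ∨ y = -v) := by
  classical
  set w := wr α β with hw
  set x := xs α β with hx
  obtain ⟨c, hc0, hcr⟩ := odd_rel V hV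
  -- the traces
  have hreal : ∀ p : ℕ, p.Prime → p ∉ S → ∃ y : ℝ, x p + (x p)⁻¹ = (y : ℂ) := fun p hp hpS =>
    xs_real (hα p hp hpS) (hβ p hp hpS) (hdet p hp hpS) (hc p hp hpS)
  choose! a ha using hreal
  have habs : ∀ p : ℕ, p.Prime → p ∉ S → |a p| = ‖α p + β p‖ := fun p hp hpS =>
    xs_abs (hα p hp hpS) (hβ p hp hpS) (hdet p hp hpS) (ha p hp hpS)
  have hroot : ∀ p : ℕ, p.Prime → p ∉ S → p ∉ T → a p * ∏ v ∈ V, (a p ^ 2 - v ^ 2) = 0 := by
    intro p hp hpS hpT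
    rcases hT p hp hpS hpT with h | h
    · rw [← habs p hp hpS, abs_eq_zero] at h
      rw [h, zero_mul]
    · rw [Finset.prod_eq_zero h, mul_zero]
      rw [← habs p hp hpS, sq_abs, sub_self]
  set r₀ : ℝ := 1 + ∑ v ∈ V, |v| + |C₀| with hr₀
  have hs0 : 0 ≤ ∑ v ∈ V, |v| := Finset.sum_nonneg fun v _ => abs_nonneg _
  have hc00 := abs_nonneg C₀
  have hr1 : 1 ≤ r₀ := by linarith
  obtain ⟨B, hB⟩ := exists_nat_ge (4 * (r₀ ^ K) ^ 2)
  set S' : Finset ℕ := S ∪ Finset.range B with hS'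
  have hSS : S ⊆ S' := fun p hp => Finset.mem_union_left _ hp
  have hnS : ∀ p : PS S', (p : ℕ) ∉ S := fun p hp => p.2.2 (hSS hp)
  have hpB : ∀ p : PS S', B ≤ (p : ℕ) := by
    intro p
    by_contra h1
    push Not at h1
    exact p.2.2 (Finset.mem_union_right _ (Finset.mem_range.2 h1))
  have hzn : ∀ p : PS S', (p : ℕ) ∉ T → 1 + ‖((a p : ℝ) : ℂ)‖ ≤ r₀ := by
    intro p hpT
    rw [Complex.norm_real, Real.norm_eq_abs, hr₀, habs p p.2.1 (hnS p)]
    have h1 : ‖α p + β p‖ ≤ ∑ v ∈ V, |v| := by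
      rcases hT p p.2.1 (hnS p) hpT with h | h
      · rw [h]
        exact hs0
      · refine (le_abs_self _).trans ?_
        exact Finset.single_le_sum (f := fun v => |v|) (fun v _ => abs_nonneg _) h
    linarith
  have hC₀ : C₀ ≤ r₀ := by
    have := le_abs_self C₀
    linarith
  have hxn : ∀ p : ℕ, p.Prime → p ∉ S → ‖x p‖ = ‖α p‖ := fun p hp hpS => by
    have h1 := al_eq (hα p hp hpS) (hβ p hp hpS)
    rw [h1, norm_mul, wr_norm (hdet p hp hpS), one_mul]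
  have hxn' : ∀ p : ℕ, p.Prime → p ∉ S → ‖(x p)⁻¹‖ = ‖β p‖ := fun p hp hpS => by
    have h1 := be_eq (hα p hp hpS) (hβ p hp hpS)
    rw [h1, norm_mul, wr_norm (hdet p hp hpS), one_mul]
  have ht1 : ∀ p : PS S', ‖x p‖ ≤ r₀ := fun p => by
    by_cases hpT : (p : ℕ) ∈ T
    · rw [hxn p p.2.1 (hnS p)]
      exact ((hC p p.2.1 (hnS p) hpT).1).trans hC₀
    · exact (root_bd (ha p p.2.1 (hnS p))).trans (hzn p hpT)
  have ht2 : ∀ p : PS S', ‖(x p)⁻¹‖ ≤ r₀ := fun p => by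
    by_cases hpT : (p : ℕ) ∈ T
    · rw [hxn' p p.2.1 (hnS p)]
      exact ((hC p p.2.1 (hnS p) hpT).2).trans hC₀
    · exact (root_bd (u := (x p)⁻¹) (z := ((a p : ℝ) : ℂ)) (by
        rw [inv_inv, ← ha p p.2.1 (hnS p)]
        ring)).trans (hzn p hpT)
  have hl : ∀ p : PS S', 4 * (r₀ ^ K) ^ 2 ≤ (p : ℕ) := fun p =>
    hB.trans (by exact_mod_cast hpB p)
  have hwn : ∀ p : ℕ, p.Prime → p ∉ S → ‖w p‖ = 1 := fun p hp hpS => wr_norm (hdet p hp hpS)
  have hw0 : ∀ p : ℕ, p.Prime → p ∉ S → w p ≠ 0 := fun p hp hpS =>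
    wr_ne (hα p hp hpS) (hβ p hp hpS)
  have hx0 : ∀ p : ℕ, p.Prime → p ∉ S → x p ≠ 0 := fun p hp hpS =>
    xs_ne (hα p hp hpS) (hβ p hp hpS)
  -- the relation in terms of the traces
  have hsum : ∀ (z : ℂ) (u : ℂ) (y : ℝ), u ≠ 0 → u + u⁻¹ = (y : ℂ) →
      ∑ j : Fin (K + 1), (c j : ℂ) * (z ^ ((j : ℤ) + 2 * tw j) * ch j u) =
        z * ((y * ∏ v ∈ V, (y ^ 2 - v ^ 2) : ℝ) : ℂ) := by
    intro z u y hu huy
    rw [hcr y, ← Fin.sum_univ_eq_sum_range (fun j => c j * xr j y)]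
    push_cast
    rw [Finset.mul_sum]
    refine Finset.sum_congr rfl fun j _ => ?_
    rw [ch_eq hu huy]
    rcases Nat.mod_two_eq_zero_or_one (j : ℕ) with h | h
    · rw [hc0 j h]
      simp
    · rw [tw_odd h, zpow_one]
      ring
  have hsum' : ∀ (z : ℂ) (u : ℂ) (y : ℝ), u ≠ 0 → u + u⁻¹ = (y : ℂ) →
      ∑ j : Fin (K + 1), (c j : ℂ) * (z ^ (-((j : ℤ) + 2 * tw j)) * ch j u) =
        z⁻¹ * ((y * ∏ v ∈ V, (y ^ 2 - v ^ 2) : ℝ) : ℂ) := by
    intro z u y hu huy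
    rw [← hsum z⁻¹ u y hu huy]
    refine Finset.sum_congr rfl fun j _ => ?_
    rw [inv_zpow']
  obtain ⟨h1, h2⟩ := rel_pair (J := Fin (K + 1)) (S := S) (S₁ := S') (n := fun j => (j : ℕ) + 1)
    (β := fun j => wx w x j (tw j)) (β' := fun j p i => (wx w x j (tw j) p i)⁻¹)
    (μ := fun j => mu2 r e f j (tw j)) (μ' := fun j => mu2 r e f j (-((j : ℕ) : ℤ) - tw j))
    (N := fun j => N j (tw j)) (D := fun j => D j (tw j))
    (N' := fun j => N j (-((j : ℕ) : ℤ) - tw j)) (D' := fun j => D j (-((j : ℕ) : ℤ) - tw j))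
    (c := fun j => c j) (M := 2 * (K + 1)) (ρ := r₀ ^ K) hTs
    (fun j => (hL j (by omega) (tw j)).congr fun p hp hpS i hi =>
      pk_eq (hα p hp hpS) (hβ p hp hpS) (by omega) _)
    (fun j => by
      have h3 := (hL j (by omega) (-((j : ℕ) : ℤ) - tw j)).reflect
      refine h3.congr fun p hp hpS i hi => ?_
      rw [wx_inv (by omega : i ≤ (j : ℕ))]
      exact pk_eq (hα p hp hpS) (hβ p hp hpS) (by omega) _)
    (fun j => hF j (by omega) (tw j)) hSS (one_le_pow₀ hr1) (fun j => by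
      have : ((j : ℕ) : ℝ) ≤ K := by exact_mod_cast (by omega : (j : ℕ) ≤ K)
      push_cast
      linarith)
    (fun j p i hi => ⟨bd_wx hr1 (hwn p p.2.1 (hnS p)) (ht1 p) (ht2 p) (by omega) _ hi, by
      rw [wx_inv (by omega : i ≤ (j : ℕ))]
      exact bd_wx hr1 (hwn p p.2.1 (hnS p)) (ht1 p) (ht2 p) (by omega) _ (by omega)⟩) hl
    (fun j p _ _ i _ => rfl)
    (fun p hpT => by
      simp only [ps_wx]
      simp only [pow_one]
      rw [hsum (w p) (x p) (a p) (hx0 p p.2.1 (hnS p)) (ha p p.2.1 (hnS p)),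
        hroot p p.2.1 (hnS p) hpT]
      simp)
    (fun p hpT => by
      simp only [ps_wx_inv]
      simp only [pow_one]
      rw [hsum' (w p) (x p) (a p) (hx0 p p.2.1 (hnS p)) (ha p p.2.1 (hnS p)),
        hroot p p.2.1 (hnS p) hpT]
      simp)
  refine ⟨?_, fun p hp hpS n hn => ?_⟩
  · by_contra hr
    have h3 : ∀ z : ℂ, ∑ k : Fin (K + 1), c k * (pt r k z + pt r k (z - 1)) = 0 := by
      intro z
      have h4 := h2 z
      have h5 := h2 (z - 2)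
      have h6 : ∑ k : Fin (K + 1), c k * (2 * (pt r k z + pt r k (z - 1))) = 0 := by
        rw [← sub_eq_zero.2 (h4.trans h5.symm), ← Finset.sum_sub_distrib]
        refine Finset.sum_congr rfl fun k _ => ?_
        rw [← mul_sub, ← mu2_sum r e f k (tw k) z, ← gi_diff2]
        simp only [mo_app]
        push_cast
        ring
      have h7 : ∑ k : Fin (K + 1), c k * (2 * (pt r k z + pt r k (z - 1))) =
          2 * ∑ k : Fin (K + 1), c k * (pt r k z + pt r k (z - 1)) := by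
        rw [Finset.mul_sum]
        exact Finset.sum_congr rfl fun k _ => by ring
      rw [h7] at h6
      linarith
    have h4 := weights_zero (c := fun k : Fin (K + 1) => c k) hr h3
    have h5 := hcr r₀
    rw [← Fin.sum_univ_eq_sum_range (fun j => c j * xr j r₀)] at h5
    have h6 : ∀ k : Fin (K + 1), c k = 0 := fun k => congrFun h4 k
    simp only [h6, zero_mul, Finset.sum_const_zero] at h5
    rcases mul_eq_zero.1 h5 with h7 | h7
    · linarith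
    · rw [Finset.prod_eq_zero_iff] at h7
      obtain ⟨v, hv, hv2⟩ := h7
      have h8 : |v| ≤ ∑ v ∈ V, |v| :=
        Finset.single_le_sum (f := fun v => |v|) (fun v _ => abs_nonneg _) hv
      have h9 : |v| < r₀ := by
        rw [hr₀]
        linarith
      have h10 : v ^ 2 < r₀ ^ 2 := by
        rw [← sq_abs v]
        exact pow_lt_pow_left₀ h9 (abs_nonneg _) (by norm_num)
      linarith
  · obtain ⟨y, hy⟩ := tr_real (hx0 p hp hpS) (ha p hp hpS) n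
    refine ⟨y, hy, ?_⟩
    have h3 := h1 p hp hpS (n - 1)
    rw [Nat.sub_add_cancel hn] at h3
    simp only [ps_wx] at h3
    rw [hsum _ _ y (pow_ne_zero _ (hx0 p hp hpS)) hy] at h3
    have h4 := (mul_eq_zero.1 h3).resolve_left (pow_ne_zero _ (hw0 p hp hpS))
    have h5 : y * ∏ v ∈ V, (y ^ 2 - v ^ 2) = 0 := by exact_mod_cast h4
    rcases mul_eq_zero.1 h5 with h6 | h6
    · exact Or.inl h6
    · rw [Finset.prod_eq_zero_iff] at h6
      obtain ⟨v, hv, hv2⟩ := h6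
      refine Or.inr ⟨v, hv, ?_⟩
      exact sq_eq_sq_iff_eq_or_eq_neg.1 (sub_eq_zero.1 hv2)

end Pool.Agent.U253.EEA
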