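import Mathlib

/-!
# Algebraic representations of `GL_2(ℂ)` on the diagonal torus
-/

set_option autoImplicit false

namespace Pool.Agent.U253.EEA

open Matrix Polynomial

/-- a representation of `GL_2(ℂ)` is algebraic: its matrix coefficients are polynomials in the entries of
`g`, divided by powers of `det g` -/
def IsAlgebraic {m : ℕ} (ρ : GL (Fin 2) ℂ →* GL (Fin m) ℂ) : Prop :=
  ∀ i j : Fin m, ∃ (P : MvPolynomial (Fin 2 × Fin 2) ℂ) (d : ℕ), ∀ g : GL (Fin 2) ℂ,
    (ρ g : Matrix (Fin m) (Fin m) ℂ) i j * (g : Matrix (Fin 2) (Fin 2) ℂ).det ^ d =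
      MvPolynomial.eval (fun x => (g : Matrix (Fin 2) (Fin 2) ℂ) x.1 x.2) P

/-- the diagonal torus -/
noncomputable def tor : ℂˣ × ℂˣ →* GL (Fin 2) ℂ where
  toFun t := ⟨!![(t.1 : ℂ), 0; 0, (t.2 : ℂ)], !![((t.1⁻¹ : ℂˣ) : ℂ), 0; 0, ((t.2⁻¹ : ℂˣ) : ℂ)],
    by ext i j; fin_cases i <;> fin_cases j <;> simp [Matrix.mul_apply, Fin.sum_univ_two],
    by ext i j; fin_cases i <;> fin_cases j <;> simp [Matrix.mul_apply, Fin.sum_univ_two]⟩
  map_one' := by
    ext i j
    fin_cases i <;> fin_cases j <;> simp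
  map_mul' s t := by
    ext i j
    fin_cases i <;> fin_cases j <;> simp [Matrix.mul_apply, Fin.sum_univ_two]

theorem tor_coe (t : ℂˣ × ℂˣ) :
    ((tor t : GL (Fin 2) ℂ) : Matrix (Fin 2) (Fin 2) ℂ) = !![(t.1 : ℂ), 0; 0, (t.2 : ℂ)] := rfl

/-- characters of the torus -/
noncomputable def chi (a : ℤ × ℤ) : ℂˣ × ℂˣ →* ℂ where
  toFun t := ((t.1 ^ a.1 * t.2 ^ a.2 : ℂˣ) : ℂ)
  map_one' := by simp
  map_mul' s t := by
    simp only [Prod.fst_mul, Prod.snd_mul, mul_zpow, Units.val_mul]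
    ring

theorem chi_apply (a : ℤ × ℤ) (t : ℂˣ × ℂˣ) : chi a t = (t.1 : ℂ) ^ a.1 * (t.2 : ℂ) ^ a.2 := by
  simp [chi]

theorem chi_add (a b : ℤ × ℤ) (t : ℂˣ × ℂˣ) : chi (a + b) t = chi a t * chi b t := by
  simp only [chi_apply, Prod.fst_add, Prod.snd_add]
  rw [zpow_add₀ t.1.ne_zero, zpow_add₀ t.2.ne_zero]
  ring

theorem chi_inj : Function.Injective chi := by
  intro a b h
  have h2 : (2 : ℂ) ≠ 0 := two_ne_zero
  have key : ∀ m n : ℤ, (2 : ℂ) ^ m = (2 : ℂ) ^ n → m = n := by
    intro m n h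
    have h3 := congrArg norm h
    rw [norm_zpow, norm_zpow] at h3
    exact zpow_right_injective₀ (by norm_num) (by norm_num) h3
  have h1 := DFunLike.congr_fun h (Units.mk0 2 h2, 1)
  have h3 := DFunLike.congr_fun h (1, Units.mk0 2 h2)
  rw [chi_apply, chi_apply] at h1 h3
  simp only [Units.val_mk0, Units.val_one, _root_.one_zpow, mul_one, one_mul] at h1 h3
  exact Prod.ext (key _ _ h1) (key _ _ h3)

/-- functions on the torus which are combinations of the characters -/
noncomputable def Wc : Submodule ℂ (ℂˣ × ℂˣ → ℂ) :=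
  Submodule.span ℂ (Set.range fun a : ℤ × ℤ => (chi a : ℂˣ × ℂˣ → ℂ))

theorem Wc_mul {f : ℂˣ × ℂˣ → ℂ} (hf : f ∈ Wc) (a : ℤ × ℤ) : (fun t => f t * chi a t) ∈ Wc := by
  unfold Wc at hf ⊢
  induction hf using Submodule.span_induction with
  | mem x hx =>
    obtain ⟨b, rfl⟩ := hx
    refine Submodule.subset_span ⟨b + a, ?_⟩
    funext t
    exact chi_add b a t
  | zero =>
    simp only [Pi.zero_apply, zero_mul]
    exact Submodule.zero_mem _
  | add x y _ _ hx hy =>
    simp only [Pi.add_apply, add_mul]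
    exact Submodule.add_mem _ hx hy
  | smul c x _ hx =>
    simp only [Pi.smul_apply, smul_mul_assoc]
    exact Submodule.smul_mem _ c hx

theorem poly_mem (P : MvPolynomial (Fin 2 × Fin 2) ℂ) :
    (fun t : ℂˣ × ℂˣ => MvPolynomial.eval
      (fun x => ((tor t : GL (Fin 2) ℂ) : Matrix (Fin 2) (Fin 2) ℂ) x.1 x.2) P) ∈ Wc := by
  induction P using MvPolynomial.induction_on with
  | C c =>
    simp only [MvPolynomial.eval_C]
    have h1 : (fun _ : ℂˣ × ℂˣ => c) = c • (chi 0 : ℂˣ × ℂˣ → ℂ) := by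
      funext t
      simp [chi_apply]
    rw [h1]
    exact Submodule.smul_mem _ c (Submodule.subset_span ⟨0, rfl⟩)
  | add p q hp hq =>
    simp only [map_add]
    exact Submodule.add_mem _ hp hq
  | mul_X p n hp =>
    simp only [map_mul, MvPolynomial.eval_X]
    obtain ⟨i, j⟩ := n
    have h0 : (fun _ : ℂˣ × ℂˣ => (0 : ℂ)) ∈ Wc := Submodule.zero_mem _
    fin_cases i <;> fin_cases j
    · have := Wc_mul hp (1, 0)
      simpa [tor_coe, chi_apply] using this
    · simpa [tor_coe] using h0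
    · simpa [tor_coe] using h0
    · have := Wc_mul hp (0, 1)
      simpa [tor_coe, chi_apply] using this

theorem coef_mem {m : ℕ} {ρ : GL (Fin 2) ℂ →* GL (Fin m) ℂ} (h : IsAlgebraic ρ) (i j : Fin m) :
    (fun t : ℂˣ × ℂˣ => (ρ (tor t) : Matrix (Fin m) (Fin m) ℂ) i j) ∈ Wc := by
  obtain ⟨P, d, hP⟩ := h i j
  have h1 := Wc_mul (poly_mem P) (-(d : ℤ), -(d : ℤ))
  convert h1 using 1
  funext t
  rw [← hP (tor t), tor_coe, Matrix.det_fin_two_of, chi_apply]
  have h2 : (t.1 : ℂ) ≠ 0 := t.1.ne_zero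
  have h3 : (t.2 : ℂ) ≠ 0 := t.2.ne_zero
  simp only [mul_zero, sub_zero, _root_.zpow_neg, _root_.zpow_natCast, mul_pow]
  field_simp

/-- linear independence of the characters -/
theorem chi_indep {F : Finset (ℤ × ℤ)} {c : ℤ × ℤ → ℂ}
    (h : ∀ t : ℂˣ × ℂˣ, ∑ a ∈ F, c a * chi a t = 0) : ∀ a ∈ F, c a = 0 := by
  have h1 : LinearIndependent ℂ (fun a : ℤ × ℤ => (chi a : ℂˣ × ℂˣ → ℂ)) :=
    (linearIndependent_monoidHom (ℂˣ × ℂˣ) ℂ).comp chi chi_inj
  rw [linearIndependent_iff'] at h1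
  refine h1 F c ?_
  funext t
  simpa using h t

theorem uniq {m : ℕ} {F : Finset (ℤ × ℤ)} {A B : ℤ × ℤ → Matrix (Fin m) (Fin m) ℂ}
    (h : ∀ t : ℂˣ × ℂˣ, ∑ a ∈ F, chi a t • A a = ∑ a ∈ F, chi a t • B a) : ∀ a ∈ F, A a = B a := by
  intro a ha
  ext i j
  have h1 := chi_indep (F := F) (c := fun a => A a i j - B a i j) (fun t => by
    have h2 := congrFun (congrFun (h t) i) j
    simp only [Matrix.sum_apply, Matrix.smul_apply, smul_eq_mul] at h2
    rw [← sub_eq_zero, ← Finset.sum_sub_distrib] at h2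
    rw [← h2]
    exact Finset.sum_congr rfl fun a _ => by ring) a ha
  exact sub_eq_zero.1 h1

/-- the determinant along an idempotent -/
theorem det_idem {m : ℕ} {E : Matrix (Fin m) (Fin m) ℂ} (hE : E * E = E) :
    ∃ r : ℕ, ∀ c : ℂ, (1 + (c - 1) • E).det = c ^ r := by
  classical
  set F : ℂ[X] := ((1 : Matrix (Fin m) (Fin m) ℂ[X]) + (X - 1 : ℂ[X]) • E.map C).det with hF
  have hev : ∀ c : ℂ, F.eval c = (1 + (c - 1) • E).det := by
    intro c
    rw [hF, ← coe_evalRingHom, RingHom.map_det]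
    congr 1
    ext i j
    simp [RingHom.mapMatrix_apply, Matrix.map_apply, Matrix.add_apply, Matrix.smul_apply,
      Matrix.one_apply]
    split_ifs <;> simp
  have hmul : ∀ c d : ℂ, F.eval (c * d) = F.eval c * F.eval d := by
    intro c d
    rw [hev, hev, hev, ← Matrix.det_mul]
    congr 1
    have e : ((c - 1) • E) * ((d - 1) • E) = ((c - 1) * (d - 1)) • E := by
      rw [Matrix.smul_mul, Matrix.mul_smul, hE, smul_smul]
    have e2 : (1 + (c - 1) • E) * (1 + (d - 1) • E) =
        1 + (d - 1) • E + ((c - 1) • E + ((c - 1) • E) * ((d - 1) • E)) := by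
      generalize (c - 1) • E = A
      generalize (d - 1) • E = B
      noncomm_ring
    rw [e2, e]
    have e3 : c * d - 1 = (d - 1) + ((c - 1) + (c - 1) * (d - 1)) := by ring
    rw [e3, add_smul, add_smul, add_assoc]
  have h1 : F.eval 1 = 1 := by
    rw [hev]
    simp
  have hF0 : F ≠ 0 := by
    intro h
    rw [h] at h1
    simp at h1
  obtain ⟨G, hG, hG0⟩ := Polynomial.exists_eq_pow_rootMultiplicity_mul_and_not_dvd F hF0 0
  set r := F.rootMultiplicity 0 with hr
  rw [C_0, sub_zero] at hG hG0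
  have hG0' : G.eval 0 ≠ 0 := by
    intro h
    exact hG0 (by rw [X_dvd_iff, coeff_zero_eq_eval_zero]; exact h)
  have hGe : ∀ c : ℂ, F.eval c = c ^ r * G.eval c := by
    intro c
    rw [hG]
    simp
  have hGm : ∀ c : ℂ, c ≠ 0 → G.eval c = 1 := by
    intro c hc
    have h2 : G.comp (C c * X) = C (G.eval c) * G := by
      refine Polynomial.eq_of_infinite_eval_eq _ _ ?_
      refine Set.Infinite.mono (s := {d : ℂ | d ≠ 0}) ?_ (Set.finite_singleton (0 : ℂ)).infinite_compl
      intro d hd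
      have hd : d ≠ 0 := hd
      have h3 := hmul c d
      rw [hGe, hGe, hGe, mul_pow] at h3
      show (G.comp (C c * X)).eval d = (C (G.eval c) * G).eval d
      simp only [eval_comp, eval_mul, eval_C, eval_X]
      have h4 : c ^ r * d ^ r ≠ 0 := mul_ne_zero (pow_ne_zero _ hc) (pow_ne_zero _ hd)
      refine mul_left_cancel₀ h4 ?_
      linear_combination h3
    have h3 := congrArg (Polynomial.eval 0) h2
    simp only [eval_comp, eval_mul, eval_C, eval_X, mul_zero] at h3
    have h4 : (G.eval c - 1) * G.eval 0 = 0 := by linear_combination -h3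
    rcases mul_eq_zero.1 h4 with h5 | h5
    · linear_combination h5
    · exact absurd h5 hG0'
  have hG1 : G = 1 := by
    refine Polynomial.eq_of_infinite_eval_eq _ _ ?_
    refine Set.Infinite.mono (s := {d : ℂ | d ≠ 0}) ?_ (Set.finite_singleton (0 : ℂ)).infinite_compl
    intro d hd
    show G.eval d = (1 : ℂ[X]).eval d
    rw [hGm d hd, eval_one]
  refine ⟨r, fun c => ?_⟩
  rw [← hev, hGe, hG1]
  simp

/-- **the weights of an algebraic representation** -/
theorem weights {m : ℕ} {ρ : GL (Fin 2) ℂ →* GL (Fin m) ℂ} (h : IsAlgebraic ρ) :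
    ∃ (F : Finset (ℤ × ℤ)) (r : ℤ × ℤ → ℕ), (∀ a ∈ F, a.swap ∈ F) ∧ (∀ a, r a.swap = r a) ∧
      ∀ (t : ℂˣ × ℂˣ) (z : ℂ), (1 - z • (ρ (tor t) : Matrix (Fin m) (Fin m) ℂ)).det =
        ∏ a ∈ F, (1 - z * chi a t) ^ r a := by
  classical
  have hL : ∀ i j : Fin m, ∃ L : (ℤ × ℤ) →₀ ℂ, ∀ t : ℂˣ × ℂˣ,
      (ρ (tor t) : Matrix (Fin m) (Fin m) ℂ) i j = ∑ a ∈ L.support, L a * chi a t := by
    intro i j
    have h1 := coef_mem h i j
    unfold Wc at h1
    rw [Finsupp.mem_span_range_iff_exists_finsupp] at h1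
    obtain ⟨L, hL⟩ := h1
    refine ⟨L, fun t => ?_⟩
    have h2 := congrFun hL t
    rw [← h2]
    simp [Finsupp.sum]
  choose L hL using hL
  set F0 : Finset (ℤ × ℤ) := Finset.univ.biUnion fun i => Finset.univ.biUnion fun j => (L i j).support
    with hF0
  set F : Finset (ℤ × ℤ) := F0 ∪ F0.image Prod.swap with hF
  have hFs : ∀ a ∈ F, a.swap ∈ F := by
    intro a ha
    rw [hF, Finset.mem_union, Finset.mem_image] at ha ⊢
    rcases ha with h1 | ⟨b, hb, rfl⟩
    · exact Or.inr ⟨a, h1, rfl⟩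
    · exact Or.inl (by rwa [Prod.swap_swap])
  set E : ℤ × ℤ → Matrix (Fin m) (Fin m) ℂ := fun a => Matrix.of fun i j => L i j a with hE
  set M : ℂˣ × ℂˣ → Matrix (Fin m) (Fin m) ℂ := fun t => (ρ (tor t) : Matrix (Fin m) (Fin m) ℂ) with hM
  have hEF : ∀ a, a ∉ F → E a = 0 := by
    intro a ha
    ext i j
    have h1 : a ∉ (L i j).support := fun h2 => ha (Finset.mem_union_left _
      (Finset.mem_biUnion.2 ⟨i, Finset.mem_univ _, Finset.mem_biUnion.2 ⟨j, Finset.mem_univ _, h2⟩⟩))
    simpa [hE] using Finsupp.notMem_support_iff.1 h1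
  have hMt : ∀ t, M t = ∑ a ∈ F, chi a t • E a := by
    intro t
    ext i j
    rw [Matrix.sum_apply]
    simp only [Matrix.smul_apply, smul_eq_mul, hE, Matrix.of_apply]
    have h1 := hL i j t
    simp only [hM]
    rw [h1]
    have h2 : (L i j).support ⊆ F := fun a ha => Finset.mem_union_left _
      (Finset.mem_biUnion.2 ⟨i, Finset.mem_univ _, Finset.mem_biUnion.2 ⟨j, Finset.mem_univ _, ha⟩⟩)
    rw [← Finset.sum_subset h2 (fun a _ ha => by rw [Finsupp.notMem_support_iff.1 ha, mul_zero])]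
    exact Finset.sum_congr rfl fun a _ => by ring
  have hMm : ∀ s t, M (s * t) = M s * M t := by
    intro s t
    simp only [hM]
    rw [map_mul, map_mul, Units.val_mul]
  have h1 : ∀ t, ∀ b ∈ F, M t * E b = chi b t • E b := by
    intro t
    refine uniq (F := F) (A := fun b => M t * E b) (B := fun b => chi b t • E b) fun s => ?_
    have h2 := hMm t s
    rw [hMt (t * s), hMt s, Finset.mul_sum] at h2
    simp only [Matrix.mul_smul, map_mul] at h2
    rw [← h2]
    refine Finset.sum_congr rfl fun a _ => ?_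
    rw [smul_smul, mul_comm]
  have h2 : ∀ b ∈ F, ∀ a ∈ F, E a * E b = if a = b then E b else 0 := by
    intro b hb
    refine uniq (F := F) (A := fun a => E a * E b) (B := fun a => if a = b then E b else 0) fun t => ?_
    have h3 := h1 t b hb
    rw [hMt t, Finset.sum_mul] at h3
    simp only [Matrix.smul_mul] at h3
    rw [h3]
    simp [Finset.sum_ite_eq', hb]
  have h3 : ∑ a ∈ F, E a = 1 := by
    have h4 := hMt 1
    simp only [map_one, one_smul] at h4
    rw [← h4]
    simp [hM]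
  have hid : ∀ a, E a * E a = E a := by
    intro a
    by_cases ha : a ∈ F
    · rw [h2 a ha a ha, if_pos rfl]
    · rw [hEF a ha, mul_zero]
  choose r hr using fun a => det_idem (hid a)
  -- the determinant
  have hdet : ∀ (c : ℤ × ℤ → ℂ) (F' : Finset (ℤ × ℤ)), F' ⊆ F →
      (1 + ∑ a ∈ F', (c a - 1) • E a).det = ∏ a ∈ F', c a ^ r a := by
    intro c F'
    induction F' using Finset.induction_on with
    | empty => simp
    | insert b F' hb ih =>
      intro hsub
      have hsub' : F' ⊆ F := fun a ha => hsub (Finset.mem_insert_of_mem ha)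
      have hbF := hsub (Finset.mem_insert_self b F')
      rw [Finset.sum_insert hb, Finset.prod_insert hb, ← ih hsub', ← hr b (c b), mul_comm,
        ← Matrix.det_mul]
      congr 1
      have h4 : (∑ a ∈ F', (c a - 1) • E a) * E b = 0 := by
        rw [Finset.sum_mul]
        refine Finset.sum_eq_zero fun a ha => ?_
        rw [Matrix.smul_mul, h2 b hbF a (hsub' ha), if_neg (fun h : a = b => hb (h ▸ ha)), smul_zero]
      rw [mul_add, mul_one, Matrix.mul_smul, add_mul, one_mul, h4, add_zero]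
      abel
  refine ⟨F, r, hFs, fun a => ?_, fun t z => ?_⟩
  · -- symmetry
    set w : GL (Fin 2) ℂ := ⟨!![0, 1; 1, 0], !![0, 1; 1, 0],
      by ext i j; fin_cases i <;> fin_cases j <;> simp [Matrix.mul_apply, Fin.sum_univ_two],
      by ext i j; fin_cases i <;> fin_cases j <;> simp [Matrix.mul_apply, Fin.sum_univ_two]⟩ with hw
    have hwt : ∀ t : ℂˣ × ℂˣ, tor t.swap * w = w * tor t := by
      intro t
      ext i j
      have hwc : (w : Matrix (Fin 2) (Fin 2) ℂ) = !![0, 1; 1, 0] := rfl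
      rw [Units.val_mul, Units.val_mul, tor_coe, tor_coe, hwc]
      fin_cases i <;> fin_cases j <;> simp [Matrix.mul_apply, Fin.sum_univ_two]
    set Wm : Matrix (Fin m) (Fin m) ℂ := (ρ w : Matrix (Fin m) (Fin m) ℂ) with hWm
    have hWu : IsUnit Wm.det := by
      have := (ρ w).isUnit
      exact (Matrix.isUnit_iff_isUnit_det _).1 this
    have h4 : ∀ t : ℂˣ × ℂˣ, M t.swap * Wm = Wm * M t := by
      intro t
      have h5 := congrArg (fun g => ((ρ g : GL (Fin m) ℂ) : Matrix (Fin m) (Fin m) ℂ)) (hwt t)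
      simp only [map_mul, Units.val_mul] at h5
      exact h5
    have h5 : ∀ a ∈ F, E a.swap * Wm = Wm * E a := by
      refine uniq (F := F) (A := fun a => E a.swap * Wm) (B := fun a => Wm * E a) fun t => ?_
      have h6 := h4 t
      rw [hMt, hMt, Finset.sum_mul, Finset.mul_sum] at h6
      simp only [Matrix.smul_mul, Matrix.mul_smul] at h6
      rw [← h6]
      refine Finset.sum_bij' (fun a _ => a.swap) (fun a _ => a.swap) (fun a ha => hFs a ha)
        (fun a ha => hFs a ha) (fun a _ => Prod.swap_swap a) (fun a _ => Prod.swap_swap a)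
        (fun a _ => ?_)
      congr 1
      rw [chi_apply, chi_apply]
      simp only [Prod.fst_swap, Prod.snd_swap]
      ring
    by_cases ha : a ∈ F
    · have h6 := h5 a ha
      have h7 : (1 + ((2 : ℂ) - 1) • E a.swap).det = (1 + ((2 : ℂ) - 1) • E a).det := by
        have h8 : (1 + ((2 : ℂ) - 1) • E a.swap) * Wm = Wm * (1 + ((2 : ℂ) - 1) • E a) := by
          rw [add_mul, mul_add, one_mul, mul_one, Matrix.smul_mul, Matrix.mul_smul, h6]
        have h9 := congrArg Matrix.det h8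
        rw [Matrix.det_mul, Matrix.det_mul, mul_comm] at h9
        exact hWu.mul_left_cancel h9
      rw [hr, hr] at h7
      have h8 : (2 : ℕ) ^ r a.swap = 2 ^ r a := by exact_mod_cast h7
      exact Nat.pow_right_injective (le_refl 2) h8
    · have ha' : a.swap ∉ F := fun h => ha (by have := hFs _ h; rwa [Prod.swap_swap] at this)
      have h7 : (1 + ((2 : ℂ) - 1) • E a.swap).det = (1 + ((2 : ℂ) - 1) • E a).det := by
        rw [hEF a ha, hEF _ ha']
      rw [hr, hr] at h7
      have h8 : (2 : ℕ) ^ r a.swap = 2 ^ r a := by exact_mod_cast h7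
      exact Nat.pow_right_injective (le_refl 2) h8
  · rw [← hdet (fun a => 1 - z * chi a t) F subset_rfl]
    congr 1
    have h4 := hMt t
    simp only [hM] at h4
    rw [h4, Finset.smul_sum, sub_eq_add_neg, ← Finset.sum_neg_distrib]
    congr 1
    refine Finset.sum_congr rfl fun a _ => ?_
    rw [smul_smul, ← neg_smul]
    congr 1
    ring

end Pool.Agent.U253.EEA
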