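import Pool.Agent.U253.EEA.Core2
import Pool.Agent.U253.EEA.Rep

/-!
# The L-functions of all algebraic representations
-/

set_option autoImplicit false

namespace Pool.Agent.U253.EEA

open Filter Topology Complex Set Pool.Agent.N210.FV Pool.Agent.N210.FW Pool.Agent.N845.SP

/-- the logarithm of one inverse Euler factor -/
noncomputable def lg (w x : ℕ → ℂ) (u v : ℤ) (p : ℕ) (s : ℂ) : ℂ :=
  log (1 - w p ^ u * x p ^ v * (p : ℂ) ^ (-s))

theorem El2_lg (w x : ℕ → ℂ) (k : ℕ) (l : ℤ) (p : ℕ) (s : ℂ) :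
    El2 w x k l p s = ∑ i ∈ Finset.range (k + 1), lg w x ((k : ℤ) + 2 * l) ((k : ℤ) - 2 * i) p s := rfl

section

variable {S : Finset ℕ} {w x : ℕ → ℂ}

theorem Nice.fsum {ι : Type*} (t : Finset ι) {E : ι → ℕ → ℂ → ℂ}
    (h : ∀ i ∈ t, ∃ N D, Nice False S (E i) 0 N D) (c : ι → ℤ) :
    ∃ N D, Nice False S (fun p z => ∑ i ∈ t, (c i : ℂ) * E i p z) 0 N D := by
  classical
  induction t using Finset.induction_on with
  | empty =>
    refine ⟨fun _ => 1, fun _ => 1, ?_⟩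
    have := Nice.one (P := False) (S := S)
    simpa using this
  | insert a t ha ih =>
    obtain ⟨N1, D1, h1⟩ := ih fun i hi => h i (Finset.mem_insert_of_mem hi)
    obtain ⟨N2, D2, h2⟩ := h a (Finset.mem_insert_self a t)
    obtain ⟨N3, D3, h3⟩ := h2.int (c a)
    refine ⟨_, _, ((h3.mul h1).congr (E' := fun p z => ∑ i ∈ insert a t, (c i : ℂ) * E i p z)
      fun p _ _ s _ => ?_).congr_g fun hP => hP.elim⟩
    rw [Finset.sum_insert ha]

theorem nice_diag (hAll : ∀ (k : ℕ) (l : ℤ), ∃ N' D', Nice False S (El2 w x k l) 0 N' D') (a : ℤ) :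
    ∃ N D, Nice False S (lg w x (2 * a) 0) 0 N D := by
  obtain ⟨N, D, h⟩ := hAll 0 a
  refine ⟨N, D, h.congr fun p _ _ s _ => ?_⟩
  rw [El2_lg, Finset.sum_range_one]
  congr 1
  simp

theorem nice_pair (hAll : ∀ (k : ℕ) (l : ℤ), ∃ N' D', Nice False S (El2 w x k l) 0 N' D')
    {a b : ℤ} (hab : b < a) :
    ∃ N D, Nice False S (fun p s => lg w x (a + b) (a - b) p s + lg w x (a + b) (b - a) p s) 0 N D := by
  obtain ⟨d, hd⟩ := Int.eq_ofNat_of_zero_le (sub_pos.2 hab).le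
  have hd1 : 1 ≤ d := by omega
  rcases Nat.eq_or_lt_of_le hd1 with h1 | h1
  · obtain ⟨N, D, h⟩ := hAll 1 b
    refine ⟨N, D, h.congr fun p _ _ s _ => ?_⟩
    rw [El2_lg, Finset.sum_range_succ, Finset.sum_range_one]
    have e1 : ((1 : ℕ) : ℤ) + 2 * b = a + b := by omega
    have e2 : ((1 : ℕ) : ℤ) - 2 * ((0 : ℕ) : ℤ) = a - b := by omega
    have e3 : ((1 : ℕ) : ℤ) - 2 * ((1 : ℕ) : ℤ) = b - a := by omega
    rw [e1, e2, e3]
  · obtain ⟨n, rfl⟩ : ∃ n, d = n + 2 := ⟨d - 2, by omega⟩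
    obtain ⟨N, D, h⟩ := hAll (n + 2) b
    obtain ⟨N', D', h'⟩ := hAll n (b + 1)
    refine ⟨_, _, ((h.mul h'.inv).congr
      (E' := fun p s => lg w x (a + b) (a - b) p s + lg w x (a + b) (b - a) p s)
      fun p _ _ s _ => ?_).congr_g fun hP => hP.elim⟩
    rw [El2_lg, El2_lg, Finset.sum_range_succ, Finset.sum_range_succ']
    have e1 : ((n + 2 : ℕ) : ℤ) + 2 * b = a + b := by omega
    have e2 : (n : ℤ) + 2 * (b + 1) = a + b := by omega
    have e3 : ((n + 2 : ℕ) : ℤ) - 2 * ((0 : ℕ) : ℤ) = a - b := by omega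
    have e4 : ((n + 2 : ℕ) : ℤ) - 2 * ((n + 2 : ℕ) : ℤ) = b - a := by omega
    have e5 : ∀ i : ℕ, ((n + 2 : ℕ) : ℤ) - 2 * ((i + 1 : ℕ) : ℤ) = (n : ℤ) - 2 * i := by
      intro i
      push_cast
      ring
    rw [e1, e2, e3, e4]
    simp only [e5]
    ring

theorem nice_rep (hAll : ∀ (k : ℕ) (l : ℤ), ∃ N' D', Nice False S (El2 w x k l) 0 N' D')
    {F : Finset (ℤ × ℤ)} {r : ℤ × ℤ → ℕ} (hF : ∀ a ∈ F, a.swap ∈ F) (hr : ∀ a, r a.swap = r a) :
    ∃ N D, Nice False S (fun p s => ∑ a ∈ F, (r a : ℂ) * lg w x (a.1 + a.2) (a.1 - a.2) p s) 0 N D := by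
  classical
  obtain ⟨N1, D1, h1⟩ := Nice.fsum (S := S) (F.filter fun a => a.1 = a.2)
    (E := fun a => lg w x (2 * a.1) 0) (fun a _ => nice_diag hAll a.1) fun a => (r a : ℤ)
  obtain ⟨N2, D2, h2⟩ := Nice.fsum (S := S) (F.filter fun a => a.2 < a.1)
    (E := fun a p s => lg w x (a.1 + a.2) (a.1 - a.2) p s + lg w x (a.1 + a.2) (a.2 - a.1) p s)
    (fun a ha => nice_pair hAll (Finset.mem_filter.1 ha).2) fun a => (r a : ℤ)
  refine ⟨_, _, ((h1.mul h2).congr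
    (E' := fun p s => ∑ a ∈ F, (r a : ℂ) * lg w x (a.1 + a.2) (a.1 - a.2) p s)
    fun p _ _ s _ => ?_).congr_g fun hP => hP.elim⟩
  have hsplit : ∀ g : ℤ × ℤ → ℂ, ∑ a ∈ F, g a = ∑ a ∈ F.filter (fun a => a.1 = a.2), g a +
      ∑ a ∈ F.filter (fun a => a.2 < a.1), (g a + g a.swap) := by
    intro g
    rw [Finset.sum_add_distrib]
    have e1 : ∑ a ∈ F.filter (fun a => a.2 < a.1), g a.swap =
        ∑ a ∈ F.filter (fun a => a.1 < a.2), g a := by
      refine Finset.sum_bij' (fun a _ => a.swap) (fun a _ => a.swap) (fun a ha => ?_)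
        (fun a ha => ?_) (fun a _ => Prod.swap_swap a) (fun a _ => Prod.swap_swap a) (fun a _ => rfl)
      · rw [Finset.mem_filter] at ha ⊢
        exact ⟨hF a ha.1, ha.2⟩
      · rw [Finset.mem_filter] at ha ⊢
        exact ⟨hF a ha.1, ha.2⟩
    rw [e1]
    have e2 : F = F.filter (fun a => a.1 = a.2) ∪ (F.filter (fun a => a.2 < a.1) ∪
        F.filter (fun a => a.1 < a.2)) := by
      ext a
      simp only [Finset.mem_union, Finset.mem_filter]
      constructor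
      · intro h
        rcases lt_trichotomy a.1 a.2 with h1 | h1 | h1
        · exact Or.inr (Or.inr ⟨h, h1⟩)
        · exact Or.inl ⟨h, h1⟩
        · exact Or.inr (Or.inl ⟨h, h1⟩)
      · rintro (h | h | h) <;> exact h.1
    conv_lhs => rw [e2]
    rw [Finset.sum_union, Finset.sum_union]
    · rw [Finset.disjoint_left]
      intro a ha hb
      rw [Finset.mem_filter] at ha hb
      omega
    · rw [Finset.disjoint_left]
      intro a ha hb
      rw [Finset.mem_union, Finset.mem_filter, Finset.mem_filter] at hb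
      rw [Finset.mem_filter] at ha
      omega
  rw [hsplit]
  congr 1
  · refine Finset.sum_congr rfl fun a ha => ?_
    rw [Finset.mem_filter] at ha
    have e1 : a.1 + a.2 = 2 * a.1 := by omega
    have e2 : a.1 - a.2 = 0 := by omega
    rw [e1, e2]
    push_cast
    rfl
  · refine Finset.sum_congr rfl fun a _ => ?_
    simp only [Prod.fst_swap, Prod.snd_swap]
    rw [hr a, add_comm a.2 a.1]
    push_cast
    ring

end

/-- **the L-functions of all algebraic representations** -/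
theorem all_rep {S : Finset ℕ} {A : ℕ → GL (Fin 2) ℂ} {α β : ℕ → ℂ} {r : ℂ} {e f : ℤ} {K : ℕ}
    {N D : ℕ → ℤ → ℂ → ℂ}
    (hA : ∀ p : ℕ, p.Prime → p ∉ S → ∃ g : GL (Fin 2) ℂ,
      ((g * A p * g⁻¹ : GL (Fin 2) ℂ) : Matrix (Fin 2) (Fin 2) ℂ) = !![α p, 0; 0, β p])
    (hdet : ∀ p : ℕ, p.Prime → p ∉ S → ‖α p * β p‖ = 1)
    (hc : ∀ p : ℕ, p.Prime → p ∉ S →
      (starRingEnd ℂ) (α p + β p) * (α p * β p) = α p + β p)
    (hL : ∀ k ≤ K, ∀ l : ℤ, Half S (k + 1) (pk α β k l) (N k l) (D k l))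
    (hF : ∀ k ≤ K, ∀ l : ℤ, FEq S (mu2 r e f k l) (mu2 r e f k (-k - l)) (N k l) (D k l)
      (N k (-k - l)) (D k (-k - l)))
    {T : Set ℕ} (hTs : Sparse T) {C₀ : ℝ}
    (hC : ∀ p : ℕ, p.Prime → p ∉ S → p ∈ T → ‖α p‖ ≤ C₀ ∧ ‖β p‖ ≤ C₀)
    (V : Finset ℝ) (hV : 2 * V.card + 1 ≤ K)
    (hT : ∀ p : ℕ, p.Prime → p ∉ S → p ∉ T → ‖α p + β p‖ = 0 ∨ ‖α p + β p‖ ∈ V) :
    r = 0 ∧ (∀ p : ℕ, p.Prime → p ∉ S → ‖α p‖ = 1 ∧ ‖β p‖ = 1 ∧
      (∃ n : ℕ, 0 < n ∧ n ≤ 2 * V.card + 1 ∧ α p ^ n = β p ^ n) ∧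
      (‖α p + β p‖ = 0 ∨ ∃ v ∈ V, ‖α p + β p‖ = |v|)) ∧
    ∀ (m : ℕ) (ρ : GL (Fin 2) ℂ →* GL (Fin m) ℂ), IsAlgebraic ρ → ∃ N' D' : ℂ → ℂ,
      Differentiable ℂ N' ∧ Differentiable ℂ D' ∧
      (∃ C : ℝ, ∀ s, ‖N' s‖ ≤ Real.exp (C * (1 + ‖s‖) ^ (3 / 2 : ℝ)) ∧
        ‖D' s‖ ≤ Real.exp (C * (1 + ‖s‖) ^ (3 / 2 : ℝ))) ∧
      (∀ s : ℂ, 1 < s.re → D' s ≠ 0) ∧
      ∀ s : ℂ, 1 < s.re → Tendsto (fun X : ℕ =>
        ∏ p ∈ (Finset.range X).filter (fun p => p.Prime ∧ p ∉ S),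
          ((1 - (p : ℂ) ^ (-s) • ((ρ (A p) : GL (Fin m) ℂ) : Matrix (Fin m) (Fin m) ℂ)).det)⁻¹) atTop
        (𝓝 (N' s / D' s)) := by
  classical
  have hne : ∀ p : ℕ, p.Prime → p ∉ S → α p ≠ 0 ∧ β p ≠ 0 := by
    intro p hp hpS
    have h1 := hdet p hp hpS
    constructor
    · intro h2
      rw [h2, zero_mul, norm_zero] at h1
      exact zero_ne_one h1
    · intro h2
      rw [h2, mul_zero, norm_zero] at h1
      exact zero_ne_one h1
  have hα : ∀ p : ℕ, p.Prime → p ∉ S → α p ≠ 0 := fun p hp hpS => (hne p hp hpS).1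
  have hβ : ∀ p : ℕ, p.Prime → p ∉ S → β p ≠ 0 := fun p hp hpS => (hne p hp hpS).2
  obtain ⟨hr0, hcl⟩ := few2 hα hβ hdet hc hL hF hTs hC V hV hT
  set w := wr α β with hw
  set x := xs α β with hx
  have hw1 : ∀ p : ℕ, p.Prime → p ∉ S → ‖w p‖ = 1 := fun p hp hpS => wr_norm (hdet p hp hpS)
  have hw0 : ∀ p : ℕ, p.Prime → p ∉ S → w p ≠ 0 := fun p hp hpS =>
    wr_ne (hα p hp hpS) (hβ p hp hpS)
  have hx0 : ∀ p : ℕ, p.Prime → p ∉ S → x p ≠ 0 := fun p hp hpS =>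
    xs_ne (hα p hp hpS) (hβ p hp hpS)
  obtain ⟨hord, hAll⟩ := core2 hw1 hx0 V hV hcl (N := N) (D := D) (K := K)
    (fun k hk l => (hL k hk l).congr fun p hp hpS i hi =>
      pk_eq (hα p hp hpS) (hβ p hp hpS) (by omega) _)
  have hx1 : ∀ p : ℕ, p.Prime → p ∉ S → ‖x p‖ = 1 := fun p hp hpS =>
    norm_eq_one_of_pow_eq_one (pow_orderOf_eq_one (x p)) (hord p hp hpS).1.ne'
  refine ⟨hr0, fun p hp hpS => ⟨?_, ?_, ?_, ?_⟩, fun m ρ hρ => ?_⟩
  · rw [al_eq (hα p hp hpS) (hβ p hp hpS), norm_mul]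
    have h1 := hw1 p hp hpS
    have h2 := hx1 p hp hpS
    rw [h1, h2, one_mul]
  · rw [be_eq (hα p hp hpS) (hβ p hp hpS), norm_mul, norm_inv]
    have h1 := hw1 p hp hpS
    have h2 := hx1 p hp hpS
    rw [h1, h2, one_mul, inv_one]
  · -- the order of `α/β`
    have hz0 : x p ^ 2 ≠ 0 := pow_ne_zero _ (hx0 p hp hpS)
    obtain ⟨h1, h2⟩ := root_unity (u := x p ^ 2) hz0 (V := insert (-2) (V.image fun v => v ^ 2 - 2))
      (by
        intro n hn
        obtain ⟨y, hy, hy2⟩ := hcl p hp hpS n hn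
        have h3 : x p ^ n ≠ 0 := pow_ne_zero _ (hx0 p hp hpS)
        have h4 : (x p ^ 2) ^ n + ((x p ^ 2) ^ n)⁻¹ = ((y ^ 2 - 2 : ℝ) : ℂ) := by
          rw [← pow_mul, mul_comm 2 n, pow_mul]
          push_cast
          rw [← hy]
          field_simp
          ring
        rcases hy2 with h5 | ⟨v, hv, h5⟩
        · refine ⟨-2, Finset.mem_insert_self _ _, ?_⟩
          rw [h4, h5]
          norm_num
        · refine ⟨v ^ 2 - 2, Finset.mem_insert_of_mem (Finset.mem_image.2 ⟨v, hv, rfl⟩), ?_⟩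
          rw [h4]
          congr 2
          rcases h5 with h5 | h5
          · rw [h5]
          · rw [h5, neg_sq])
    have h3 : (insert (-2 : ℝ) (V.image fun v => v ^ 2 - 2)).card ≤ V.card + 1 :=
      (Finset.card_insert_le _ _).trans (by
        have := Finset.card_image_le (s := V) (f := fun v : ℝ => v ^ 2 - 2)
        omega)
    refine ⟨orderOf (x p ^ 2), h1, by omega, ?_⟩
    have h4 := pow_orderOf_eq_one (x p ^ 2)
    have h5 : x p ^ orderOf (x p ^ 2) = (x p)⁻¹ ^ orderOf (x p ^ 2) := by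
      have h6 : x p ^ orderOf (x p ^ 2) * x p ^ orderOf (x p ^ 2) = 1 := by
        rw [← mul_pow, ← sq, h4]
      rw [inv_pow]
      exact eq_inv_of_mul_eq_one_left h6
    have h6 := al_eq (hα p hp hpS) (hβ p hp hpS)
    have h7 := be_eq (hα p hp hpS) (hβ p hp hpS)
    rw [h6, h7, mul_pow, mul_pow]
    congr 1
  · obtain ⟨y, hy, hy2⟩ := hcl p hp hpS 1 le_rfl
    rw [pow_one] at hy
    rw [← xs_abs (hα p hp hpS) (hβ p hp hpS) (hdet p hp hpS) hy]
    rcases hy2 with h5 | ⟨v, hv, h5 | h5⟩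
    · exact Or.inl (by rw [h5, abs_zero])
    · exact Or.inr ⟨v, hv, by rw [h5]⟩
    · exact Or.inr ⟨v, hv, by rw [h5, abs_neg]⟩
  · obtain ⟨F, rk, hFs, hrs, hdetF⟩ := weights hρ
    obtain ⟨N', D', h⟩ := nice_rep (w := w) (x := x) hAll hFs hrs
    obtain ⟨C, -, hCo⟩ := h.order
    refine ⟨N', D', h.diffN, h.diffD, ⟨C, hCo⟩, h.neD, fun s hs => ?_⟩
    refine (h.euler s hs).congr fun X => ?_
    refine Finset.prod_congr rfl fun p hp => ?_
    rw [Finset.mem_filter] at hp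
    obtain ⟨-, hpp, hpS⟩ := hp
    have hαp := hα p hpp hpS
    have hβp := hβ p hpp hpS
    set t : ℂˣ × ℂˣ := (Units.mk0 (α p) hαp, Units.mk0 (β p) hβp) with ht
    obtain ⟨g, hg⟩ := hA p hpp hpS
    have hgt : g * A p * g⁻¹ = tor t := by
      apply Units.ext
      rw [hg, tor_coe]
      rfl
    have hdA : (1 - (p : ℂ) ^ (-s) • ((ρ (A p) : GL (Fin m) ℂ) : Matrix (Fin m) (Fin m) ℂ)).det =
        (1 - (p : ℂ) ^ (-s) • (ρ (tor t) : Matrix (Fin m) (Fin m) ℂ)).det := by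
      have h1 : tor t * g = g * A p := by rw [← hgt, inv_mul_cancel_right]
      have h2 : (ρ (tor t) : Matrix (Fin m) (Fin m) ℂ) * (ρ g : Matrix (Fin m) (Fin m) ℂ) =
          (ρ g : Matrix (Fin m) (Fin m) ℂ) * (ρ (A p) : Matrix (Fin m) (Fin m) ℂ) := by
        rw [← Units.val_mul, ← Units.val_mul, ← map_mul, ← map_mul, h1]
      have h3 : (1 - (p : ℂ) ^ (-s) • (ρ (tor t) : Matrix (Fin m) (Fin m) ℂ)) *
          (ρ g : Matrix (Fin m) (Fin m) ℂ) = (ρ g : Matrix (Fin m) (Fin m) ℂ) *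
          (1 - (p : ℂ) ^ (-s) • (ρ (A p) : Matrix (Fin m) (Fin m) ℂ)) := by
        rw [sub_mul, mul_sub, one_mul, mul_one, Matrix.smul_mul, Matrix.mul_smul, h2]
      have h4 := congrArg Matrix.det h3
      rw [Matrix.det_mul, Matrix.det_mul, mul_comm] at h4
      have hu : IsUnit ((ρ g : Matrix (Fin m) (Fin m) ℂ)).det :=
        (Matrix.isUnit_iff_isUnit_det _).1 (ρ g).isUnit
      exact (hu.mul_left_cancel h4).symm
    rw [hdA, hdetF, ← Finset.prod_inv_distrib, ← Finset.sum_neg_distrib, exp_sum]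
    refine Finset.prod_congr rfl fun a _ => ?_
    have h1 : chi a t = w p ^ (a.1 + a.2) * x p ^ (a.1 - a.2) := by
      rw [chi_apply, ht]
      simp only [Units.val_mk0]
      have h6 : α p = w p * x p := al_eq hαp hβp
      have h7 : β p = w p * (x p)⁻¹ := be_eq hαp hβp
      rw [h6, h7, mul_zpow, mul_zpow, zpow_add₀ (hw0 p hpp hpS), zpow_sub₀ (hx0 p hpp hpS), inv_zpow]
      ring
    have h2 : ‖w p ^ (a.1 + a.2) * x p ^ (a.1 - a.2) * (p : ℂ) ^ (-s)‖ < 1 := by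
      rw [norm_mul, norm_mul, norm_zpow, norm_zpow, hw1 p hpp hpS, hx1 p hpp hpS, one_zpow, one_zpow,
        one_mul, one_mul, pz_norm hpp]
      exact Real.rpow_lt_one_of_one_lt_of_neg (by exact_mod_cast hpp.one_lt) (by linarith)
    rw [h1]
    unfold lg
    rw [← mul_neg, mul_comm ((rk a : ℂ)), ← neg_mul_eq_neg_mul, exp_neg, mul_comm (log _),
      exp_nat_mul, exp_log (fac_ne h2), mul_comm ((p : ℂ) ^ (-s))]

end Pool.Agent.U253.EEA
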