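import Pool.Agent.U253.EEA.Rel2

/-!
# `GL_2` with an arbitrary central character: few absolute values of the Hecke eigenvalues
-/

set_option autoImplicit false

namespace Pool.Agent.U253.EEA

open Filter Topology Complex Set Pool.Agent.N210.FV Pool.Agent.N210.FW Pool.Agent.N845.SP

/-- parameters of `Sym^k ⊗ det^l` at `p` -/
noncomputable def pk (α β : ℕ → ℂ) (k : ℕ) (l : ℤ) (p i : ℕ) : ℂ :=
  α p ^ (k - i) * β p ^ i * (α p * β p) ^ l

/-- square root of the central character -/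
noncomputable def wr (α β : ℕ → ℂ) (p : ℕ) : ℂ := (α p * β p) ^ ((2 : ℕ) : ℂ)⁻¹

/-- normalised parameter -/
noncomputable def xs (α β : ℕ → ℂ) (p : ℕ) : ℂ := α p / wr α β p

/-- parameters in terms of `w` and `x` -/
noncomputable def wx (w x : ℕ → ℂ) (k : ℕ) (l : ℤ) (p i : ℕ) : ℂ := w p ^ ((k : ℤ) + 2 * l) * bs x k p i

section

variable {α β : ℕ → ℂ} {p : ℕ}

theorem wr_sq : wr α β p ^ 2 = α p * β p := cpow_nat_inv_pow _ two_ne_zero

theorem wr_ne (hα : α p ≠ 0) (hβ : β p ≠ 0) : wr α β p ≠ 0 := by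
  intro h
  have h1 := wr_sq (α := α) (β := β) (p := p)
  rw [h, zero_pow two_ne_zero] at h1
  exact mul_ne_zero hα hβ h1.symm

theorem xs_ne (hα : α p ≠ 0) (hβ : β p ≠ 0) : xs α β p ≠ 0 := div_ne_zero hα (wr_ne hα hβ)

theorem al_eq (hα : α p ≠ 0) (hβ : β p ≠ 0) : α p = wr α β p * xs α β p := by
  unfold xs
  rw [mul_div_cancel₀ _ (wr_ne hα hβ)]

theorem be_eq (hα : α p ≠ 0) (hβ : β p ≠ 0) : β p = wr α β p * (xs α β p)⁻¹ := by
  have h1 := wr_sq (α := α) (β := β) (p := p)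
  have h2 := wr_ne hα hβ
  unfold xs
  rw [inv_div, ← mul_div_assoc, ← sq, h1]
  field_simp

theorem wr_norm (h : ‖α p * β p‖ = 1) : ‖wr α β p‖ = 1 := by
  have h1 : ‖wr α β p‖ ^ 2 = 1 := by rw [← norm_pow, wr_sq, h]
  have h2 := norm_nonneg (wr α β p)
  nlinarith

theorem xs_tr (hα : α p ≠ 0) (hβ : β p ≠ 0) :
    xs α β p + (xs α β p)⁻¹ = (α p + β p) / wr α β p := by
  have h2 := wr_ne hα hβ
  have h1 := be_eq hα hβ
  have h3 := al_eq hα hβ
  rw [eq_div_iff h2, add_mul, mul_comm, ← h3, mul_comm, ← h1]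

theorem xs_real (hα : α p ≠ 0) (hβ : β p ≠ 0) (h : ‖α p * β p‖ = 1)
    (hc : (starRingEnd ℂ) (α p + β p) * (α p * β p) = α p + β p) :
    ∃ y : ℝ, xs α β p + (xs α β p)⁻¹ = (y : ℂ) := by
  have hw := wr_ne hα hβ
  have hn := wr_norm h
  have h1 : (starRingEnd ℂ) (wr α β p) = (wr α β p)⁻¹ := by
    rw [Complex.inv_def, normSq_eq_norm_sq, hn]
    simp
  have h2 : (starRingEnd ℂ) (xs α β p + (xs α β p)⁻¹) = xs α β p + (xs α β p)⁻¹ := by
    rw [xs_tr hα hβ, map_div₀, h1, div_inv_eq_mul, eq_div_iff hw, mul_assoc, ← sq, wr_sq, hc]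
  exact ⟨_, (conj_eq_iff_real.1 h2).choose_spec⟩

theorem xs_abs (hα : α p ≠ 0) (hβ : β p ≠ 0) (h : ‖α p * β p‖ = 1) {y : ℝ}
    (hy : xs α β p + (xs α β p)⁻¹ = (y : ℂ)) : |y| = ‖α p + β p‖ := by
  rw [← Real.norm_eq_abs, ← Complex.norm_real, ← hy, xs_tr hα hβ, norm_div, wr_norm h, div_one]

theorem pk_eq (hα : α p ≠ 0) (hβ : β p ≠ 0) {k i : ℕ} (hi : i ≤ k) (l : ℤ) :
    pk α β k l p i = wx (wr α β) (xs α β) k l p i := by
  have hw := wr_ne hα hβ
  have hx := xs_ne hα hβ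
  unfold pk wx bs
  rw [← wr_sq, al_eq hα hβ]
  rw [be_eq hα hβ, ← zpow_natCast, ← zpow_natCast (_ * (xs α β p)⁻¹), ← zpow_natCast (wr α β p) 2, ← zpow_mul,
    mul_zpow, mul_zpow, inv_zpow', Nat.cast_sub hi]
  have e1 : wr α β p ^ ((k : ℤ) + 2 * l) = wr α β p ^ ((k : ℤ) - i) * wr α β p ^ (i : ℤ) *
      wr α β p ^ (((2 : ℕ) : ℤ) * l) := by
    rw [← zpow_add₀ hw, ← zpow_add₀ hw]
    congr 1
    push_cast
    ring
  have e2 : xs α β p ^ ((k : ℤ) - 2 * i) = xs α β p ^ ((k : ℤ) - i) * xs α β p ^ (-(i : ℤ)) := by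
    rw [← zpow_add₀ hx]
    congr 1
    ring
  rw [e1, e2]
  ring

end

theorem wx_inv {w x : ℕ → ℂ} {p : ℕ} {k i : ℕ} (hi : i ≤ k) (l : ℤ) :
    (wx w x k l p i)⁻¹ = wx w x k (-k - l) p (k - i) := by
  unfold wx bs
  rw [mul_inv, ← zpow_neg, ← zpow_neg, Nat.cast_sub hi]
  congr 2
  · ring
  · ring

theorem ps_wx (w x : ℕ → ℂ) (k : ℕ) (l : ℤ) (p n : ℕ) :
    ps (Finset.range (k + 1)) (wx w x k l) p n = (w p ^ n) ^ ((k : ℤ) + 2 * l) * ch k (x p ^ n) := by
  unfold ps wx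
  rw [← ps_bs]
  unfold ps
  rw [Finset.mul_sum]
  refine Finset.sum_congr rfl fun i _ => ?_
  rw [mul_pow, ← zpow_natCast (w p ^ _), ← zpow_natCast (w p) n, ← zpow_mul, ← zpow_mul,
    mul_comm (n : ℤ)]

theorem ps_wx_inv (w x : ℕ → ℂ) (k : ℕ) (l : ℤ) (p n : ℕ) :
    ps (Finset.range (k + 1)) (fun p i => (wx w x k l p i)⁻¹) p n =
      (w p ^ n) ^ (-((k : ℤ) + 2 * l)) * ch k (x p ^ n) := by
  have h1 : ps (Finset.range (k + 1)) (fun p i => (wx w x k l p i)⁻¹) p n =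
      ps (Finset.range (k + 1)) (wx w x k (-k - l)) p n := by
    unfold ps
    rw [← Finset.sum_range_reflect (fun i => wx w x k (-k - l) p i ^ n)]
    refine Finset.sum_congr rfl fun i hi => ?_
    rw [Finset.mem_range] at hi
    simp only [Nat.add_sub_cancel]
    rw [wx_inv (by omega : i ≤ k)]
  rw [h1, ps_wx]
  congr 2
  ring

/-! ### transport of the hypotheses -/

theorem Half.congr {S : Finset ℕ} {n : ℕ} {β β' : ℕ → ℕ → ℂ} {N D : ℂ → ℂ} (h : Half S n β N D)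
    (he : ∀ p : ℕ, p.Prime → p ∉ S → ∀ i < n, β p i = β' p i) : Half S n β' N D := by
  refine ⟨h.diffN, h.diffD, h.order, h.ne, fun s hs => ?_⟩
  refine (h.euler s hs).congr fun X => ?_
  refine Finset.prod_congr rfl fun p hp => ?_
  rw [Finset.mem_filter] at hp
  refine Finset.prod_congr rfl fun i hi => ?_
  rw [he p hp.2.1 hp.2.2 i (Finset.mem_range.1 hi)]

theorem Half.reflect {S : Finset ℕ} {k : ℕ} {β : ℕ → ℕ → ℂ} {N D : ℂ → ℂ}
    (h : Half S (k + 1) β N D) : Half S (k + 1) (fun p i => β p (k - i)) N D := by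
  refine ⟨h.diffN, h.diffD, h.order, h.ne, fun s hs => ?_⟩
  refine (h.euler s hs).congr fun X => ?_
  refine Finset.prod_congr rfl fun p _ => ?_
  rw [← Finset.prod_range_reflect]
  refine Finset.prod_congr rfl fun i _ => ?_
  simp only [Nat.add_sub_cancel]

/-- archimedean parameters of `Sym^k ⊗ det^l`, for the parameter `|·|^r sgn^e ⊕ |·|^{-r} sgn^f` -/
noncomputable def mu2 (r : ℂ) (e f : ℤ) (k : ℕ) (l : ℤ) : List ℂ :=
  (List.range (k + 1)).map fun i : ℕ => r * ((k : ℂ) - 2 * i) +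
    (((((k : ℤ) - i + l) * e + (i + l) * f) % 2 : ℤ) : ℂ)

theorem delta_dual (e f : ℤ) {k i : ℕ} (hi : i ≤ k) (l : ℤ) :
    (((k : ℤ) - ((k - i : ℕ) : ℤ) + (-k - l)) * e + (((k - i : ℕ) : ℤ) + (-k - l)) * f) % 2 =
      (((k : ℤ) - i + l) * e + (i + l) * f) % 2 := by
  rw [Nat.cast_sub hi]
  have : ((k : ℤ) - ((k : ℤ) - i) + (-k - l)) * e + (((k : ℤ) - i) + (-k - l)) * f =
      -(((k : ℤ) - i + l) * e + (i + l) * f) := by ring
  rw [this]
  omega

theorem mu2_sum (r : ℂ) (e f : ℤ) (k : ℕ) (l : ℤ) (z : ℂ) :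
    (open Classical in ((mu2 r e f k l ++ mu2 r e f k (-k - l)).map fun m =>
      (if z = 1 + m then (1 : ℝ) else 0) + if z = 2 - m then 1 else 0).sum) =
      2 * (pt r k z + pt r k (z - 1)) := by
  classical
  rw [List.map_append, List.sum_append]
  unfold mu2
  rw [List.map_map, list_sum_range, List.map_map, list_sum_range,
    ← Finset.sum_range_reflect (fun i => ((fun m : ℂ => (if z = 1 + m then (1 : ℝ) else 0) +
      if z = 2 - m then 1 else 0) ∘ fun i : ℕ => r * ((k : ℂ) - 2 * i) +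
      (((((k : ℤ) - i + (-k - l)) * e + (i + (-k - l)) * f) % 2 : ℤ) : ℂ)) i),
    ← Finset.sum_add_distrib]
  have hpt1 := pt_refl r k 1 z
  have hpt2 := pt_refl r k 2 z
  have e1 : z - 1 + 1 = z := by ring
  have e2 : z - 2 + 1 = z - 1 := by ring
  rw [e1] at hpt1
  rw [e2] at hpt2
  have h3 : ∀ a b : ℝ, 2 * (a + b) = a + a + (b + b) := fun a b => by ring
  rw [h3]
  nth_rewrite 2 [← hpt1]
  nth_rewrite 2 [← hpt2]
  unfold pt
  rw [← Finset.sum_add_distrib, ← Finset.sum_add_distrib, ← Finset.sum_add_distrib]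
  refine Finset.sum_congr rfl fun i hi => ?_
  rw [Finset.mem_range] at hi
  simp only [Function.comp_apply, Nat.add_sub_cancel]
  rw [delta_dual e f (by omega) l, Nat.cast_sub (by omega : i ≤ k)]
  set ρ : ℂ := r * ((k : ℂ) - 2 * i) with hρ
  have hρ' : r * ((k : ℂ) - 2 * ((k : ℂ) - i)) = -ρ := by rw [hρ]; ring
  rw [hρ']
  rcases Int.emod_two_eq_zero_or_one (((k : ℤ) - i + l) * e + (i + l) * f) with h | h
  · rw [h]
    have a1 : (z = 1 + (ρ + ((0 : ℤ) : ℂ))) = (z = 1 + ρ) := by simp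
    have a2 : (z = 2 - (ρ + ((0 : ℤ) : ℂ))) = (z = 2 - ρ) := by simp
    have a3 : (z = 1 + (-ρ + ((0 : ℤ) : ℂ))) = (z = 1 - ρ) := by
      simp only [Int.cast_zero, add_zero, ← sub_eq_add_neg]
    have a4 : (z = 2 - (-ρ + ((0 : ℤ) : ℂ))) = (z - 1 = 1 + ρ) := by
      rw [eq_iff_iff]
      constructor
      · intro h
        rw [h]
        push_cast
        ring
      · intro h
        push_cast
        linear_combination h
    simp only [a1, a2, a3, a4]
    ring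
  · rw [h]
    have a1 : (z = 1 + (ρ + ((1 : ℤ) : ℂ))) = (z - 1 = 1 + ρ) := by
      rw [eq_iff_iff]
      push_cast
      constructor
      · intro h
        rw [h]
        ring
      · intro h
        linear_combination h
    have a2 : (z = 2 - (ρ + ((1 : ℤ) : ℂ))) = (z = 1 - ρ) := by
      rw [eq_iff_iff]
      push_cast
      constructor
      · intro h
        rw [h]
        ring
      · intro h
        linear_combination h
    have a3 : (z = 1 + (-ρ + ((1 : ℤ) : ℂ))) = (z = 2 - ρ) := by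
      rw [eq_iff_iff]
      push_cast
      constructor
      · intro h
        rw [h]
        ring
      · intro h
        linear_combination h
    have a4 : (z = 2 - (-ρ + ((1 : ℤ) : ℂ))) = (z = 1 + ρ) := by
      rw [eq_iff_iff]
      push_cast
      constructor
      · intro h
        rw [h]
        ring
      · intro h
        linear_combination h
    simp only [a1, a2, a3, a4]
    ring

end Pool.Agent.U253.EEA
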