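import Pool.Agent.N845.SP.Few

/-!
# Relations between L-functions which are not self-dual

An L-function `N/D` and its dual `N'/D'` give the self-dual products `L(s + it) L'(s - it)`, `t` real.
-/

set_option autoImplicit false

namespace Pool.Agent.U253.EEA

open Filter Topology Complex Set Pool.Agent.N210.FV Pool.Agent.N210.FW Pool.Agent.N845.SP

/-- `N/D` is the continuation of the Euler product with the parameters `β p i`, `i < n` -/
structure Half (S : Finset ℕ) (n : ℕ) (β : ℕ → ℕ → ℂ) (N D : ℂ → ℂ) : Prop where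
  diffN : Differentiable ℂ N
  diffD : Differentiable ℂ D
  order : ∃ C : ℝ, ∀ s, ‖N s‖ ≤ Real.exp (C * (1 + ‖s‖) ^ (3 / 2 : ℝ)) ∧
    ‖D s‖ ≤ Real.exp (C * (1 + ‖s‖) ^ (3 / 2 : ℝ))
  ne : ∀ s : ℂ, 1 < s.re → D s ≠ 0
  euler : ∀ s : ℂ, 1 < s.re → Tendsto (fun X : ℕ =>
    ∏ p ∈ (Finset.range X).filter (fun p => p.Prime ∧ p ∉ S),
      ∏ i ∈ Finset.range n, (1 - β p i * (p : ℂ) ^ (-s))⁻¹) atTop (𝓝 (N s / D s))

/-- the functional equation between an L-function `N/D` with the archimedean parameters `μ` and its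
dual `N'/D'` with the archimedean parameters `μ'` -/
def FEq (S : Finset ℕ) (μ μ' : List ℂ) (N D N' D' : ℂ → ℂ) : Prop :=
  ∃ (l l' m m' : List (ℕ × ℂ)) (q : ℝ) (ε : ℂ), 0 < q ∧ ε ≠ 0 ∧
    (∀ x ∈ l, x.1.Prime ∧ x.1 ∈ S) ∧ (∀ x ∈ l', x.1.Prime ∧ x.1 ∈ S) ∧
    (∀ x ∈ m, x.1.Prime ∧ x.1 ∈ S) ∧ (∀ x ∈ m', x.1.Prime ∧ x.1 ∈ S) ∧
    ∀ s, (q : ℂ) ^ s * gi μ' (1 - s) * ef l (1 - s) * ef l' s * (N s * D' (1 - s)) =
      ε * (q : ℂ) ^ (1 - s) * gi μ s * ef m s * ef m' (1 - s) * (N' (1 - s) * D s)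

/-! ### shifts -/

/-- shift of archimedean parameters -/
def shm (a : ℂ) (μ : List ℂ) : List ℂ := μ.map fun m => m + a

/-- shift of Euler factors -/
noncomputable def shl (a : ℂ) (l : List (ℕ × ℂ)) : List (ℕ × ℂ) :=
  l.map fun x => (x.1, x.2 * (x.1 : ℂ) ^ (-a))

theorem gi_shm (a : ℂ) (μ : List ℂ) (s : ℂ) : gi (shm a μ) s = gi μ (s + a) := by
  unfold gi shm
  rw [List.map_map]
  congr 1
  refine List.map_congr_left fun m _ => ?_
  simp only [Function.comp_apply]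
  congr 2
  ring

theorem gi_app (μ ν : List ℂ) (s : ℂ) : gi (μ ++ ν) s = gi μ s * gi ν s := by
  unfold gi
  rw [List.map_append, List.prod_append]

theorem ef_shl (a : ℂ) {l : List (ℕ × ℂ)} (hl : ∀ x ∈ l, x.1 ≠ 0) (s : ℂ) :
    ef (shl a l) s = ef l (s + a) := by
  unfold ef shl
  rw [List.map_map]
  congr 1
  refine List.map_congr_left fun x hx => ?_
  simp only [Function.comp_apply]
  have h0 : (x.1 : ℂ) ≠ 0 := by exact_mod_cast hl x hx
  rw [neg_add, cpow_add _ _ h0]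
  ring

theorem shl_mem {a : ℂ} {l : List (ℕ × ℂ)} {S : Finset ℕ} (hl : ∀ x ∈ l, x.1.Prime ∧ x.1 ∈ S) :
    ∀ x ∈ shl a l, x.1.Prime ∧ x.1 ∈ S := by
  intro x hx
  unfold shl at hx
  rw [List.mem_map] at hx
  obtain ⟨y, hy, rfl⟩ := hx
  exact hl y hy

theorem app_mem {l m : List (ℕ × ℂ)} {S : Finset ℕ} (hl : ∀ x ∈ l, x.1.Prime ∧ x.1 ∈ S)
    (hm : ∀ x ∈ m, x.1.Prime ∧ x.1 ∈ S) : ∀ x ∈ l ++ m, x.1.Prime ∧ x.1 ∈ S := by
  intro x hx
  rcases List.mem_append.1 hx with h | h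
  · exact hl x h
  · exact hm x h

/-- parameters of the product -/
noncomputable def bt2 (t : ℝ) (n : ℕ) (β β' : ℕ → ℕ → ℂ) (p i : ℕ) : ℂ :=
  if i < n then β p i * (p : ℂ) ^ (-(t * I)) else β' p (i - n) * (p : ℂ) ^ (t * I)

theorem prod_bt2 (t : ℝ) (n : ℕ) (β β' : ℕ → ℕ → ℂ) (p : ℕ) (f : ℂ → ℂ) :
    ∏ i ∈ Finset.range (n + n), f (bt2 t n β β' p i) =
      (∏ i ∈ Finset.range n, f (β p i * (p : ℂ) ^ (-(t * I)))) *
        ∏ i ∈ Finset.range n, f (β' p i * (p : ℂ) ^ (t * I)) := by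
  rw [Finset.prod_range_add]
  congr 1
  · refine Finset.prod_congr rfl fun i hi => ?_
    rw [Finset.mem_range] at hi
    unfold bt2
    rw [if_pos hi]
  · refine Finset.prod_congr rfl fun i _ => ?_
    unfold bt2
    rw [if_neg (by omega), Nat.add_sub_cancel_left]

theorem sum_bt2 {M : Type*} [AddCommMonoid M] (t : ℝ) (n : ℕ) (β β' : ℕ → ℕ → ℂ) (p : ℕ)
    (f : ℂ → M) :
    ∑ i ∈ Finset.range (n + n), f (bt2 t n β β' p i) =
      (∑ i ∈ Finset.range n, f (β p i * (p : ℂ) ^ (-(t * I)))) +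
        ∑ i ∈ Finset.range n, f (β' p i * (p : ℂ) ^ (t * I)) := by
  rw [Finset.sum_range_add]
  congr 1
  · refine Finset.sum_congr rfl fun i hi => ?_
    rw [Finset.mem_range] at hi
    unfold bt2
    rw [if_pos hi]
  · refine Finset.sum_congr rfl fun i _ => ?_
    unfold bt2
    rw [if_neg (by omega), Nat.add_sub_cancel_left]

theorem order_shift {f : ℂ → ℂ} {C : ℝ}
    (h : ∀ s, ‖f s‖ ≤ Real.exp (C * (1 + ‖s‖) ^ (3 / 2 : ℝ))) (a s : ℂ) :
    ‖f (s + a)‖ ≤ Real.exp ((|C| * (1 + ‖a‖) ^ (3 / 2 : ℝ)) * (1 + ‖s‖) ^ (3 / 2 : ℝ)) := by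
  refine (h _).trans ?_
  rw [Real.exp_le_exp]
  have h1 : 1 + ‖s + a‖ ≤ (1 + ‖a‖) * (1 + ‖s‖) := by
    have := norm_add_le s a
    have h2 := norm_nonneg s
    have h3 := norm_nonneg a
    nlinarith
  have h2 : (1 + ‖s + a‖) ^ (3 / 2 : ℝ) ≤ (1 + ‖a‖) ^ (3 / 2 : ℝ) * (1 + ‖s‖) ^ (3 / 2 : ℝ) := by
    rw [← Real.mul_rpow (by positivity) (by positivity)]
    exact Real.rpow_le_rpow (by positivity) h1 (by norm_num)
  calc C * (1 + ‖s + a‖) ^ (3 / 2 : ℝ) ≤ |C| * (1 + ‖s + a‖) ^ (3 / 2 : ℝ) := by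
        gcongr
        exact le_abs_self C
    _ ≤ |C| * ((1 + ‖a‖) ^ (3 / 2 : ℝ) * (1 + ‖s‖) ^ (3 / 2 : ℝ)) := by gcongr
    _ = _ := by ring

/-- **the self-dual product** -/
theorem Half.pair {S : Finset ℕ} {n : ℕ} {β β' : ℕ → ℕ → ℂ} {μ μ' : List ℂ} {N D N' D' : ℂ → ℂ}
    (h : Half S n β N D) (h' : Half S n β' N' D') (hF : FEq S μ μ' N D N' D') (t : ℝ) :
    LG S (Finset.range (n + n)) (bt2 t n β β') (shm (t * I) μ ++ shm (-(t * I)) μ')
      (fun s => N (s + t * I) * N' (s + -(t * I))) (fun s => D (s + t * I) * D' (s + -(t * I))) := by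
  have hre : ∀ s : ℂ, (s + t * I).re = s.re := fun s => by simp
  have hre' : ∀ s : ℂ, (s + -(t * I)).re = s.re := fun s => by simp
  obtain ⟨C, hC⟩ := h.order
  obtain ⟨C', hC'⟩ := h'.order
  have dsh : ∀ (f : ℂ → ℂ) (a : ℂ), Differentiable ℂ f → Differentiable ℂ fun s => f (s + a) :=
    fun f a hf => hf.comp (differentiable_id.add_const a)
  refine ⟨(dsh _ _ h.diffN).mul (dsh _ _ h'.diffN), (dsh _ _ h.diffD).mul (dsh _ _ h'.diffD),
    ⟨|C| * (1 + ‖(t * I : ℂ)‖) ^ (3 / 2 : ℝ) + |C'| * (1 + ‖-(t * I : ℂ)‖) ^ (3 / 2 : ℝ),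
      fun s => ?_⟩, fun s hs => ?_, fun s hs => ?_, ?_⟩
  · rw [add_mul, Real.exp_add, norm_mul (N _), norm_mul (D _)]
    exact ⟨mul_le_mul (order_shift (fun s => (hC s).1) (t * I) s)
        (order_shift (fun s => (hC' s).1) (-(t * I)) s) (norm_nonneg _) (Real.exp_pos _).le,
      mul_le_mul (order_shift (fun s => (hC s).2) (t * I) s)
        (order_shift (fun s => (hC' s).2) (-(t * I)) s) (norm_nonneg _) (Real.exp_pos _).le⟩
  · exact mul_ne_zero (h.ne _ (by rw [hre]; exact hs)) (h'.ne _ (by rw [hre']; exact hs))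
  · have h1 := (h.euler (s + t * I) (by rw [hre]; exact hs)).mul
      (h'.euler (s + -(t * I)) (by rw [hre']; exact hs))
    rw [div_mul_div_comm] at h1
    refine h1.congr fun X => ?_
    rw [← Finset.prod_mul_distrib]
    refine Finset.prod_congr rfl fun p hp => ?_
    rw [Finset.mem_filter] at hp
    have hp0 : (p : ℂ) ≠ 0 := by exact_mod_cast hp.2.1.ne_zero
    rw [prod_bt2 t n β β' p fun x => (1 - x * (p : ℂ) ^ (-s))⁻¹]
    congr 1
    · refine Finset.prod_congr rfl fun i _ => ?_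
      rw [neg_add, cpow_add _ _ hp0]
      ring
    · refine Finset.prod_congr rfl fun i _ => ?_
      rw [neg_add, neg_neg, cpow_add _ _ hp0]
      ring
  · obtain ⟨l, l', m, m', q, ε, hq, hε, hl, hl', hm, hm', hf⟩ := hF
    have hq0 : (q : ℂ) ≠ 0 := by exact_mod_cast hq.ne'
    refine ⟨shl (t * I) m ++ shl (-(t * I)) l, shl (t * I) l' ++ shl (-(t * I)) m', q * q, 1,
      mul_pos hq hq, one_ne_zero, app_mem (shl_mem hm) (shl_mem hl),
      app_mem (shl_mem hl') (shl_mem hm'), fun s => ?_⟩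
    have n1 : ∀ x ∈ l, x.1 ≠ 0 := fun x hx => (hl x hx).1.ne_zero
    have n2 : ∀ x ∈ l', x.1 ≠ 0 := fun x hx => (hl' x hx).1.ne_zero
    have n3 : ∀ x ∈ m, x.1 ≠ 0 := fun x hx => (hm x hx).1.ne_zero
    have n4 : ∀ x ∈ m', x.1 ≠ 0 := fun x hx => (hm' x hx).1.ne_zero
    have e1 := hf (s + t * I)
    have e2 := hf (1 - s + t * I)
    have a1 : 1 - (s + t * I) = 1 - s + -(t * I) := by ring
    have a2 : 1 - (1 - s + t * I) = s + -(t * I) := by ring
    rw [a1] at e1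
    rw [a2] at e2
    simp only [ef_append, gi_app, gi_shm, ef_shl _ n1, ef_shl _ n2, ef_shl _ n3, ef_shl _ n4,
      cpow_mul_pos hq hq]
    have q1 : (q : ℂ) ^ (s + t * I) * (q : ℂ) ^ (s + -(t * I)) = (q : ℂ) ^ s * (q : ℂ) ^ s := by
      rw [← cpow_add _ _ hq0, ← cpow_add _ _ hq0]
      congr 1
      ring
    have q2 : (q : ℂ) ^ (1 - s + t * I) * (q : ℂ) ^ (1 - s + -(t * I)) =
        (q : ℂ) ^ (1 - s) * (q : ℂ) ^ (1 - s) := by
      rw [← cpow_add _ _ hq0, ← cpow_add _ _ hq0]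
      congr 1
      ring
    refine mul_left_cancel₀ hε ?_
    rw [← q1, ← q2]
    generalize hQ1 : (q : ℂ) ^ (s + t * I) = Q1 at *
    generalize hQ2 : (q : ℂ) ^ (s + -(t * I)) = Q2 at *
    generalize hQ3 : (q : ℂ) ^ (1 - s + t * I) = Q3 at *
    generalize hQ4 : (q : ℂ) ^ (1 - s + -(t * I)) = Q4 at *
    calc _ = (Q1 * gi μ' (1 - s + -(t * I)) * ef l (1 - s + -(t * I)) * ef l' (s + t * I) *
          (N (s + t * I) * D' (1 - s + -(t * I)))) *
          (ε * Q2 * gi μ (1 - s + t * I) * ef m (1 - s + t * I) * ef m' (s + -(t * I)) *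
          (N' (s + -(t * I)) * D (1 - s + t * I))) := by ring
      _ = (ε * Q4 * gi μ (s + t * I) * ef m (s + t * I) * ef m' (1 - s + -(t * I)) *
          (N' (1 - s + -(t * I)) * D (s + t * I))) *
          (Q3 * gi μ' (s + -(t * I)) * ef l (s + -(t * I)) * ef l' (1 - s + t * I) *
          (N (1 - s + t * I) * D' (s + -(t * I)))) := by rw [e1, e2]
      _ = _ := by ring

end Pool.Agent.U253.EEA
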