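import Pool.Agent.N210.FW.Asm

/-!
# A relation outside a sparse infinite set of primes holds everywhere
-/

set_option autoImplicit false

namespace Pool.Agent.U253.EEA

open Filter Topology Complex Set Pool.Agent.N210.FV Pool.Agent.N210.FW
open scoped ArithmeticFunction.vonMangoldt

/-- coefficients of the Dirichlet series, the first powers included -/
noncomputable def a3 (S : Finset ℕ) (G : ℕ → ℕ → ℂ) : PS S ⊕ (PS S × ℕ) → ℂ :=
  Sum.elim (fun p => G p 1 * (Real.log (p : ℕ) : ℝ)) (aa S 2 G)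

/-- frequencies -/
noncomputable def o3 (S : Finset ℕ) : PS S ⊕ (PS S × ℕ) → ℝ :=
  Sum.elim (fun p => Real.log (p : ℕ)) (oo S 2)

/-- the series over the first powers -/
noncomputable def tau (S : Finset ℕ) (G : ℕ → ℕ → ℂ) (s : ℂ) : ℂ :=
  ∑' p : PS S, G p 1 * (Real.log (p : ℕ) : ℝ) * exp (-((Real.log (p : ℕ) : ℝ) : ℂ) * s)

/-- `∑_{p ∈ T} log p / √p < ∞` -/
def Sparse (T : Set ℕ) : Prop :=
  Summable ({p : ℕ | p.Prime ∧ p ∈ T}.indicator fun p : ℕ => Real.log p * (p : ℝ) ^ (-(1 / 2) : ℝ))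

section

variable {S : Finset ℕ} {G : ℕ → ℕ → ℂ} {M ρ : ℝ} {T : Set ℕ}

/-- the majorant -/
noncomputable def ma (T : Set ℕ) (p : ℕ) : ℝ :=
  {p : ℕ | p.Prime ∧ p ∈ T}.indicator (fun p : ℕ => Real.log p * (p : ℝ) ^ (-(1 / 2) : ℝ)) p

theorem ma_nonneg (T : Set ℕ) (p : ℕ) : 0 ≤ ma T p :=
  Set.indicator_nonneg (fun p _ => mul_nonneg (Real.log_natCast_nonneg p)
    (Real.rpow_nonneg (Nat.cast_nonneg p) _)) p

theorem ma_summ (hT : Sparse T) : Summable fun p : PS S => ma T p :=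
  hT.comp_injective Subtype.val_injective

theorem tb (hG : Bnd S G M ρ) (h0 : ∀ p : PS S, (p : ℕ) ∉ T → G p 1 = 0) {σ : ℝ} (hσ : 1 / 2 ≤ σ)
    (p : PS S) : ‖G p 1 * (Real.log (p : ℕ) : ℝ)‖ * Real.exp (-(Real.log (p : ℕ) * σ)) ≤
      M * ρ * ma T p := by
  have hM := hG.M0
  have hr := hG.r1
  by_cases hp : (p : ℕ) ∈ T
  · have h1 : ma T p = Real.log (p : ℕ) * ((p : ℕ) : ℝ) ^ (-(1 / 2) : ℝ) :=
      Set.indicator_of_mem (s := {p : ℕ | p.Prime ∧ p ∈ T}) ⟨p.2.1, hp⟩ _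
    have h2 := hG.bd p 1
    rw [pow_one] at h2
    have h3 : Real.exp (-(Real.log (p : ℕ) * σ)) ≤ ((p : ℕ) : ℝ) ^ (-(1 / 2) : ℝ) := by
      rw [Real.rpow_def_of_pos p.pos, Real.exp_le_exp]
      have := p.log_pos
      nlinarith
    rw [h1, norm_mul, Complex.norm_real, Real.norm_of_nonneg p.log_pos.le]
    have hl := p.log_pos.le
    calc ‖G p 1‖ * Real.log (p : ℕ) * Real.exp (-(Real.log (p : ℕ) * σ)) ≤
        (M * ρ) * Real.log (p : ℕ) * ((p : ℕ) : ℝ) ^ (-(1 / 2) : ℝ) := by gcongr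
      _ = _ := by ring
  · rw [h0 p hp]
    simp only [zero_mul, norm_zero]
    exact mul_nonneg (mul_nonneg hM (by linarith)) (ma_nonneg T p)

theorem sum_tau (hG : Bnd S G M ρ) (h0 : ∀ p : PS S, (p : ℕ) ∉ T → G p 1 = 0) (hT : Sparse T)
    {σ : ℝ} (hσ : 1 / 2 ≤ σ) :
    Summable fun p : PS S => ‖G p 1 * (Real.log (p : ℕ) : ℝ)‖ *
      Real.exp (-(Real.log (p : ℕ) * σ)) :=
  Summable.of_nonneg_of_le (fun p => by positivity) (tb hG h0 hσ) ((ma_summ hT).mul_left _)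

theorem sum3 (hG : Bnd S G M ρ) (h0 : ∀ p : PS S, (p : ℕ) ∉ T → G p 1 = 0) (hT : Sparse T)
    {σ : ℝ} (hσ : 1 / 2 < σ) : Summable fun i => ‖a3 S G i‖ * Real.exp (-(o3 S i * σ)) := by
  refine Summable.sum _ ?_ ?_
  · exact sum_tau hG h0 hT hσ.le
  · exact hG.summ 2 hσ.le (by push_cast; linarith)

theorem norm_term (a : ℂ) (b : ℝ) (s : ℂ) :
    ‖a * exp (-(b : ℂ) * s)‖ = ‖a‖ * Real.exp (-(b * s.re)) := by
  rw [norm_mul, Complex.norm_exp]
  congr 2
  rw [neg_mul, neg_re, re_ofReal_mul]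

theorem tau_summ (hG : Bnd S G M ρ) (h0 : ∀ p : PS S, (p : ℕ) ∉ T → G p 1 = 0) (hT : Sparse T)
    {s : ℂ} (hs : 1 / 2 ≤ s.re) : Summable fun p : PS S => G p 1 * (Real.log (p : ℕ) : ℝ) *
      exp (-((Real.log (p : ℕ) : ℝ) : ℂ) * s) := by
  refine Summable.of_norm ?_
  simp_rw [norm_term]
  exact sum_tau hG h0 hT hs

theorem Ds3 (hG : Bnd S G M ρ) (h0 : ∀ p : PS S, (p : ℕ) ∉ T → G p 1 = 0) (hT : Sparse T) {s : ℂ}
    (hs : 1 / 2 < s.re) : Ds (a3 S G) (o3 S) s = tau S G s + Ds (aa S 2 G) (oo S 2) s := by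
  unfold Ds
  rw [Summable.tsum_sum]
  · rfl
  · exact tau_summ hG h0 hT hs.le
  · exact hG.summC 2 hs.le (by push_cast; linarith)

theorem tau_le (hG : Bnd S G M ρ) (h0 : ∀ p : PS S, (p : ℕ) ∉ T → G p 1 = 0) (hT : Sparse T)
    {s : ℂ} (hs : 1 / 2 ≤ s.re) : ‖tau S G s‖ ≤ M * ρ * ∑' p : PS S, ma T p := by
  unfold tau
  rw [← tsum_mul_left]
  refine tsum_of_norm_bounded ((ma_summ hT).mul_left _).hasSum fun p => ?_
  rw [norm_term]
  exact tb hG h0 hs p

theorem Ds3_diffOn (hG : Bnd S G M ρ) (h0 : ∀ p : PS S, (p : ℕ) ∉ T → G p 1 = 0)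
    (hT : Sparse T) : DifferentiableOn ℂ (Ds (a3 S G) (o3 S)) {s | 1 / 2 < s.re} := by
  intro s hs
  have hs : 1 / 2 < s.re := hs
  have h1 := Ds_hasDeriv (σ := (1 / 2 + s.re) / 2) (b := a3 S G) (om := o3 S)
    (sum3 hG h0 hT (by linarith)) (fun i => by
      rcases i with p | i
      · exact p.log_pos.le
      · exact oo_nonneg 2 i)
    (s := s) (by linarith)
  exact h1.differentiableAt.differentiableWithinAt

variable {J : Type*} [Fintype J] {w : J → ℝ} {g : J → ℂ → ℂ}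

/-- the residues are square summable -/
theorem sq3 (hG : Bnd S G M ρ) (h0 : ∀ p : PS S, (p : ℕ) ∉ T → G p 1 = 0) (hT : Sparse T)
    (hg : ∀ i, Differentiable ℂ (g i)) (hne : ∀ i, ∃ s, g i s ≠ 0)
    (hr : ∀ s : ℂ, 1 / 2 < s.re → AA w g s = -Ds (a3 S G) (o3 S) s) (Z : Finset ℂ)
    (hZ : ∀ z ∈ Z, z.re = 1 / 2) : ∑ z ∈ Z, (mm w g z) ^ 2 ≤ (M * ρ ^ 2) ^ 2 / 4 := by
  have hlim : ∀ z : ℂ, z.re = 1 / 2 →
      Tendsto (fun δ : ℝ => (δ : ℂ) * D2 S G (z + δ)) (𝓝[>] 0) (𝓝 (-(mm w g z : ℂ))) := by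
    intro z hz
    obtain ⟨CV, hCV0, hCV⟩ := V_bound
    have h0' : Tendsto (fun δ : ℝ => (δ : ℂ)) (𝓝[>] 0) (𝓝 0) := by
      have := (continuous_ofReal.tendsto (0 : ℝ))
      rw [ofReal_zero] at this
      exact this.mono_left nhdsWithin_le_nhds
    have h1 : Tendsto (fun δ : ℝ => z + (δ : ℂ)) (𝓝[>] 0) (𝓝[≠] z) := by
      rw [tendsto_nhdsWithin_iff]
      constructor
      · simpa using h0'.const_add z
      · filter_upwards [self_mem_nhdsWithin] with δ hδ
        have hδ : (0 : ℝ) < δ := hδ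
        simp [hδ.ne']
    have h2 := (AA_pole (w := w) hg hne z).comp h1
    have h3 := h0'.mul h2
    rw [zero_mul] at h3
    -- the rest of the series
    have h4 : Tendsto (fun δ : ℝ => (δ : ℂ) * Ds (aa S 3 G) (oo S 3) (z + δ)) (𝓝[>] 0) (𝓝 0) := by
      have hK : ∀ᶠ δ : ℝ in 𝓝[>] 0, ‖(δ : ℂ) * Ds (aa S 3 G) (oo S 3) (z + δ)‖ ≤
          ‖(δ : ℂ)‖ * (2 * (M * ρ ^ 3) * (CV / (1 / 2))) := by
        have h5 : ∀ᶠ δ : ℝ in 𝓝[>] 0, δ < 1 / 2 :=
          mem_nhdsWithin_of_mem_nhds (gt_mem_nhds (by norm_num))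
        filter_upwards [self_mem_nhdsWithin, h5] with δ hδ hδ2
        have hδ : (0 : ℝ) < δ := hδ
        have e : (z + (δ : ℂ)).re = 1 / 2 + δ := by rw [add_re, hz, ofReal_re]
        have h6 := hG.norm_le 3 (s := z + δ) (by rw [e]; linarith) (by rw [e]; push_cast; linarith)
        rw [norm_mul]
        refine mul_le_mul_of_nonneg_left (h6.trans ?_) (norm_nonneg _)
        have hM := hG.M0
        have hr := hG.r1
        have h7 := hCV (3 * (1 / 2 + δ)) (by linarith) (by linarith)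
        have h8 : CV / (3 * (1 / 2 + δ) - 1) ≤ CV / (1 / 2) := by
          gcongr
          linarith
        have h9 : ((3 : ℕ) : ℝ) * (z + (δ : ℂ)).re = 3 * (1 / 2 + δ) := by rw [e]; norm_num
        rw [h9]
        gcongr
        exact h7.trans h8
      refine squeeze_zero_norm' hK ?_
      have h5 := h0'.norm.mul_const (2 * (M * ρ ^ 3) * (CV / (1 / 2)))
      simpa using h5
    have h4' : Tendsto (fun δ : ℝ => (δ : ℂ) * tau S G (z + δ)) (𝓝[>] 0) (𝓝 0) := by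
      have hK : ∀ᶠ δ : ℝ in 𝓝[>] 0, ‖(δ : ℂ) * tau S G (z + δ)‖ ≤
          ‖(δ : ℂ)‖ * (M * ρ * ∑' p : PS S, ma T p) := by
        filter_upwards [self_mem_nhdsWithin] with δ hδ
        have hδ : (0 : ℝ) < δ := hδ
        have e : (z + (δ : ℂ)).re = 1 / 2 + δ := by rw [add_re, hz, ofReal_re]
        rw [norm_mul]
        exact mul_le_mul_of_nonneg_left (tau_le hG h0 hT (by rw [e]; linarith)) (norm_nonneg _)
      refine squeeze_zero_norm' hK ?_
      have h5 := h0'.norm.mul_const (M * ρ * ∑' p : PS S, ma T p)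
      simpa using h5
    have h5 := ((h3.neg.sub h4).sub h4').add (tendsto_const_nhds (x := -(mm w g z : ℂ)))
    simp only [neg_zero, sub_zero, zero_add] at h5
    refine h5.congr' ?_
    filter_upwards [self_mem_nhdsWithin] with δ hδ
    have hδ : (0 : ℝ) < δ := hδ
    have e : (z + (δ : ℂ)).re = 1 / 2 + δ := by rw [add_re, hz, ofReal_re]
    simp only [Function.comp_apply]
    rw [hr _ (by rw [e]; linarith), Ds3 hG h0 hT (by rw [e]; linarith)]
    have h6 := hG.split 2 (s := z + δ) (by rw [e]; linarith) (by rw [e]; push_cast; linarith)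
    have h7 : D2 S G (z + δ) = Ds (aa S 2 G) (oo S 2) (z + δ) -
        Ds (aa S 3 G) (oo S 3) (z + δ) := by
      rw [h6]
      unfold D2
      push_cast
      ring
    rw [h7, add_sub_cancel_left]
    have hδ0 : (δ : ℂ) ≠ 0 := by exact_mod_cast hδ.ne'
    field_simp
    ring
  have h1 : Tendsto (fun δ : ℝ => ‖∑ z ∈ Z, (mm w g z : ℂ) * ((δ : ℂ) * D2 S G (z + δ))‖) (𝓝[>] 0)
      (𝓝 ‖∑ z ∈ Z, (mm w g z : ℂ) * (-(mm w g z : ℂ))‖) := by
    refine Tendsto.norm (tendsto_finsetSum _ fun z hz => ?_)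
    exact (hlim z (hZ z hz)).const_mul _
  have h2 : ‖∑ z ∈ Z, (mm w g z : ℂ) * (-(mm w g z : ℂ))‖ = ∑ z ∈ Z, (mm w g z) ^ 2 := by
    have : ∑ z ∈ Z, (mm w g z : ℂ) * (-(mm w g z : ℂ)) = -((∑ z ∈ Z, (mm w g z) ^ 2 : ℝ) : ℂ) := by
      push_cast
      rw [← Finset.sum_neg_distrib]
      exact Finset.sum_congr rfl fun z _ => by ring
    rw [this, norm_neg, Complex.norm_real, Real.norm_of_nonneg]
    exact Finset.sum_nonneg fun z _ => sq_nonneg _
  rw [h2] at h1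
  have h3 := Q_lim (m := mm w g) ((M * ρ ^ 2) ^ 2 / 4) hZ
  have h4 := le_of_tendsto_of_tendsto h1 h3 (by
    filter_upwards [self_mem_nhdsWithin] with δ hδ
    have hδ : (0 : ℝ) < δ := hδ
    have h5 : ∑ z ∈ Z, (mm w g z : ℂ) * ((δ : ℂ) * D2 S G (z + δ)) =
        (δ : ℂ) * ∑ z ∈ Z, (mm w g z : ℂ) * D2 S G (z + δ) := by
      rw [Finset.mul_sum]
      exact Finset.sum_congr rfl fun z _ => by ring
    rw [h5, norm_mul, Complex.norm_real, Real.norm_of_nonneg hδ.le]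
    exact mul_le_mul_of_nonneg_left (hG.dual hZ hδ) hδ.le)
  linarith

end

section

variable {J' : Type*} [Fintype J'] {c : J' → ℝ} {S : Finset ℕ} {F : J' → ℕ → ℕ → ℂ}
  {N D : J' → ℂ → ℂ} {M ρ : ℝ} {T : Set ℕ}

theorem gg_ent' (h : ∀ j, LF0 S (F j) (N j) (D j)) (x : J' × Bool) : Ent (gg N D x) := by
  unfold gg
  split_ifs
  · exact (h x.1).entN
  · exact (h x.1).entD

theorem right3 (h : ∀ j, LF0 S (F j) (N j) (D j)) (hb : ∀ j, Bnd S (F j) M ρ) [Nonempty J']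
    (hT : Sparse T) (h0 : ∀ p : PS S, (p : ℕ) ∉ T → GG c F p 1 = 0) (s : ℂ) (hs : 1 / 2 < s.re) :
    mm (ww c) (gg N D) s = 0 ∧ AA (ww c) (gg N D) s = -Ds (a3 S (GG c F)) (o3 S) s := by
  have hG := GG_bnd (c := c) hb
  have h1 : DifferentiableOn ℂ (fun s => -Ds (a3 S (GG c F)) (o3 S) s) {s | 1 / 2 < s.re} :=
    (Ds3_diffOn hG h0 hT).neg
  refine right_of (fun i => (gg_ent' h i).diff) (fun i => (gg_ent' h i).ne) (σ₁ := 1) h1 ?_ s hs
  intro s hs _
  rw [A0_gg]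
  have h2 : ∀ j ∈ Finset.univ, (c j : ℂ) * (logDeriv (N j) s - logDeriv (D j) s) =
      -((c j : ℂ) * Ds (aa S 1 (F j)) (oo S 1) s) := by
    intro j _
    rw [(h j).ld s hs]
    ring
  rw [Finset.sum_congr rfl h2, Finset.sum_neg_distrib, Ds_lin hb (by linarith) (by simpa using hs),
    Ds3 hG h0 hT (by linarith), hG.split 1 (by linarith) (by simpa using hs)]
  unfold tau
  simp only [Nat.cast_one, one_mul]

/-- **the coefficients at the first powers vanish also on a sparse set** -/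
theorem zero3 (h : ∀ j, LF0 S (F j) (N j) (D j)) (hb : ∀ j, Bnd S (F j) M ρ) [Nonempty J']
    (hT : Sparse T) (h0 : ∀ p : PS S, (p : ℕ) ∉ T → GG c F p 1 = 0) (p₀ : PS S) :
    GG c F p₀ 1 = 0 := by
  classical
  have hG := GG_bnd (c := c) hb
  set MG : ℝ := (∑ j, |c j|) * M with hMG
  choose μ l l' q ε hq hε hl hl' hfe using fun j => (h j).fe
  set i₀ : PS S ⊕ (PS S × ℕ) := Sum.inl p₀ with hi₀
  set ω : ℝ := o3 S i₀ with hω
  have hωe : ω = Real.log (p₀ : ℕ) := rfl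
  have hω0 : 0 < ω := by rw [hωe]; exact p₀.log_pos
  have hfreq : ∀ x : ℕ, x.Prime → x ∈ S → Real.log x ≠ 0 ∧ ∀ n : ℤ, ω ≠ n * Real.log x := by
    intro x hx hxS
    have hlog : 0 < Real.log x := Real.log_pos (by exact_mod_cast hx.one_lt)
    refine ⟨hlog.ne', fun n hn => ?_⟩
    have h1 : 0 < (n : ℝ) := by
      by_contra hcon
      push Not at hcon
      have := mul_nonpos_of_nonpos_of_nonneg hcon hlog.le
      linarith
    have h2 : 0 < n := by exact_mod_cast h1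
    obtain ⟨m, rfl⟩ := Int.eq_ofNat_of_zero_le h2.le
    rw [hωe] at hn
    have h3 := prime_pow_log p₀.2.1 hx (a := 1) (b := m) one_ne_zero (by
      push_cast
      rw [one_mul]
      exact_mod_cast hn)
    exact p₀.2.2 (h3.1 ▸ hxS)
  set H : ℂ → ℂ := fun s => ∑ j, (c j : ℂ) * HH (μ j) (l j) (l' j) (q j) s with hH
  have hTa : Tame ω H := Tame.sum hω0.ne' Finset.univ fun j _ =>
    (HH_tame hω0.ne' (μ j) (q j) (fun x hx => hfreq x.1 (hl j x hx).1 (hl j x hx).2)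
      (fun x hx => hfreq x.1 (hl' j x hx).1 (hl' j x hx).2)).const_mul (c j : ℂ)
  obtain ⟨η₀, hη₀, hTa⟩ := hTa
  set η : ℝ := min η₀ (1 / 4) / 2 with hη
  have hη1 : 0 < min η₀ (1 / 4) := lt_min hη₀ (by norm_num)
  have hη0 : 0 < η := by positivity
  have hη2 : η < η₀ := by
    have := min_le_left η₀ (1 / 4)
    linarith
  have hη4 : η < 1 / 4 := by
    have := min_le_right η₀ (1 / 4)
    linarith
  obtain ⟨hc, hn, C1, hC1, hC1b⟩ := hTa η hη0 hη2
  obtain ⟨CV, hCV0, hCV⟩ := V_bound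
  have hM0 : 0 ≤ MG := hG.M0
  have hr1 := hG.r1
  have hdiff := fun i => (gg_ent' h i).diff
  have hne := fun i => (gg_ent' h i).ne
  set BT : ℝ := MG * ρ * ∑' p : PS S, ma T p with hBT
  have hBT0 : 0 ≤ BT := mul_nonneg (mul_nonneg hM0 (by linarith))
    (tsum_nonneg fun p => ma_nonneg T p)
  set C : ℝ := 1 + C1 + MG * ρ ^ 2 * CV + BT with hC
  have hK0 : 0 ≤ MG * ρ ^ 2 * CV := by positivity
  have hset : Setup (ww c) (gg N D) (a3 S (GG c F)) (o3 S) i₀ η H C ((MG * ρ ^ 2) ^ 2 / 4) := by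
    refine ⟨gg_ent' h, fun i => ?_, hω0, ?_, hη0, hη4, by linarith, ?_, ?_, ?_, hn, ?_,
      ?_, ?_⟩
    · rcases i with p | i
      · exact p.log_pos.le
      · exact oo_nonneg 2 i
    · rintro (p | ⟨p, k⟩) hne' heq
      · apply hne'
        have h3 := prime_pow_log p.2.1 p₀.2.1 (a := 1) (b := 1) one_ne_zero (by
          push_cast
          rw [one_mul, one_mul]
          exact heq)
        rw [hi₀, Subtype.ext h3.1]
      · have h4 : oo S 2 (p, k) = Real.log (p₀ : ℕ) := heq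
        unfold oo at h4
        have h3 := prime_pow_log p.2.1 p₀.2.1 (a := k + 2) (b := 1) (by omega) (by
          push_cast
          rw [one_mul]
          simpa using h4)
        omega
    · exact sum3 hG h0 hT (by linarith)
    · exact right3 h hb hT h0
    · intro s hs hs2
      have hs3 : 1 / 2 < (1 - s).re := by
        rw [sub_re, one_re]
        linarith
      refine AA_of_eq (B := fun s => Ds (a3 S (GG c F)) (o3 S) (1 - s) + H s) hdiff hne ?_ ?_
      · refine ContinuousAt.add ?_ (hc s hs hs2)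
        have h3 : ContinuousAt (Ds (a3 S (GG c F)) (o3 S)) (1 - s) :=
          ((Ds3_diffOn hG h0 hT).differentiableAt
            ((isOpen_lt continuous_const continuous_re).mem_nhds hs3)).continuousAt
        exact ContinuousAt.comp (f := fun s : ℂ => 1 - s) h3 (by fun_prop)
      · have e1 : ∀ᶠ u in 𝓝[≠] s, 1 / 2 < (1 - u).re := by
          refine mem_nhdsWithin_of_mem_nhds ?_
          have : IsOpen {u : ℂ | 1 / 2 < (1 - u).re} :=
            isOpen_lt continuous_const (continuous_re.comp (continuous_const.sub continuous_id))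
          exact this.mem_nhds hs3
        have e2 : ∀ᶠ u in 𝓝[≠] s, ∀ i, gg N D i (1 - u) ≠ 0 := by
          rw [eventually_all]
          exact fun i => ev_refl (fun z => ev_ne (hdiff i) (hne i) z) s
        have e3 : ∀ᶠ u in 𝓝[≠] s, ∀ j, gi (μ j) u ≠ 0 ∧ gi (μ j) (1 - u) ≠ 0 ∧
            ef (l j) u ≠ 0 ∧ ef (l j) (1 - u) ≠ 0 ∧ ef (l' j) u ≠ 0 ∧ ef (l' j) (1 - u) ≠ 0 := by
          rw [eventually_all]
          intro j
          have a1 : ∀ z, ∀ᶠ u in 𝓝[≠] z, gi (μ j) u ≠ 0 := ev_ne (gi_diff _) (gi_ne _)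
          have a2 : ∀ z, ∀ᶠ u in 𝓝[≠] z, ef (l j) u ≠ 0 := ef_ev fun x hx => (hl j x hx).1.one_lt
          have a3 : ∀ z, ∀ᶠ u in 𝓝[≠] z, ef (l' j) u ≠ 0 := ef_ev fun x hx => (hl' j x hx).1.one_lt
          filter_upwards [a1 s, ev_refl a1 s, a2 s, ev_refl a2 s, a3 s, ev_refl a3 s] with
            u b1 b2 b3 b4 b5 b6
          exact ⟨b1, b2, b3, b4, b5, b6⟩
        filter_upwards [e1, e2, e3] with u h1 h2 h3 h4
        have h5 : A0 (ww c) (gg N D) (1 - u) = -Ds (a3 S (GG c F)) (o3 S) (1 - u) := by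
          rw [← AA_eq hdiff hne h2]
          exact (right3 h hb hT h0 (1 - u) h1).2
        have h6 : A0 (ww c) (gg N D) u = -A0 (ww c) (gg N D) (1 - u) + H u := by
          rw [A0_gg, A0_gg, hH, ← Finset.sum_neg_distrib, ← Finset.sum_add_distrib]
          refine Finset.sum_congr rfl fun j _ => ?_
          obtain ⟨b1, b2, b3, b4, b5, b6⟩ := h3 j
          have t1 := h4 (j, true)
          have t2 := h4 (j, false)
          have t3 := h2 (j, true)
          have t4 := h2 (j, false)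
          simp only [gg, if_true, Bool.false_eq_true, if_false] at t1 t2 t3 t4
          rw [fe_ld (h j).entN.diff (h j).entD.diff (hq j) (hε j)
            (fun x hx => (hl j x hx).1.ne_zero) (fun x hx => (hl' j x hx).1.ne_zero) (hfe j)
            t1 t3 t2 t4 b1 b2 b3 b4 b5 b6]
          ring
        rw [h6, h5, neg_neg]
    · intro s hs hs2
      rw [Ds3 hG h0 hT hs]
      have h1 := hG.norm_le 2 (s := s) hs.le (by push_cast; linarith)
      have h1' := tau_le hG h0 hT hs.le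
      refine (norm_add_le _ _).trans ((add_le_add h1' h1).trans ?_)
      have h2 : ((2 : ℕ) : ℝ) * s.re = 2 * s.re := by push_cast; ring
      have h3 := hCV (2 * s.re) (by linarith) (by linarith)
      have h4 : 0 < s.re - 1 / 2 := by linarith
      have h5 : BT ≤ BT / (s.re - 1 / 2) := by
        rw [le_div_iff₀ h4]
        nlinarith
      have h6 : 2 * (MG * ρ ^ 2) * ∑' n : ℕ, Λ n * (n : ℝ) ^ (-(2 * s.re)) ≤
          (MG * ρ ^ 2 * CV) / (s.re - 1 / 2) := by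
        calc 2 * (MG * ρ ^ 2) * ∑' n : ℕ, Λ n * (n : ℝ) ^ (-(2 * s.re)) ≤
          2 * (MG * ρ ^ 2) * (CV / (2 * s.re - 1)) := by gcongr
          _ = (MG * ρ ^ 2 * CV) / (s.re - 1 / 2) := by
            have : 2 * s.re - 1 = 2 * (s.re - 1 / 2) := by ring
            rw [this]
            field_simp
      rw [h2]
      calc BT + 2 * (MG * ρ ^ 2) * ∑' n : ℕ, Λ n * (n : ℝ) ^ (-(2 * s.re)) ≤
          BT / (s.re - 1 / 2) + (MG * ρ ^ 2 * CV) / (s.re - 1 / 2) := add_le_add h5 h6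
        _ = (BT + MG * ρ ^ 2 * CV) / (s.re - 1 / 2) := by ring
        _ ≤ C / (s.re - 1 / 2) := by
            gcongr
            linarith
    · intro s hs hs2 hs3
      refine (hC1b s hs hs2 (by linarith)).trans ?_
      have h4 : 0 < 1 / 2 - s.re := by linarith
      gcongr
      linarith
    · exact fun Z hZ => sq3 hG h0 hT hdiff hne (fun s hs => (right3 h hb hT h0 s hs).2) Z hZ
  have hz := hset.zero
  have hz2 : GG c F p₀ 1 * ((Real.log (p₀ : ℕ) : ℝ) : ℂ) = 0 := hz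
  have hlog : ((Real.log (p₀ : ℕ) : ℝ) : ℂ) ≠ 0 := by exact_mod_cast p₀.log_pos.ne'
  exact (mul_eq_zero.1 hz2).resolve_right hlog

end

end Pool.Agent.U253.EEA
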