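import Pool.Agent.U253.EEA.Pair
import Pool.Agent.U253.EEA.Sparse

/-!
# The relation principle for L-functions which are not self-dual
-/

set_option autoImplicit false

namespace Pool.Agent.U253.EEA

open Filter Topology Complex Set Pool.Agent.N210.FV Pool.Agent.N210.FW Pool.Agent.N845.SP

theorem norm_pit {p : ℕ} (hp : 0 < p) (t : ℝ) : ‖(p : ℂ) ^ (t * I)‖ = 1 := by
  rw [norm_natCast_cpow_of_pos hp]
  simp

theorem norm_pit' {p : ℕ} (hp : 0 < p) (t : ℝ) : ‖(p : ℂ) ^ (-(t * I))‖ = 1 := by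
  rw [norm_natCast_cpow_of_pos hp]
  simp

theorem ps_bt2 (t : ℝ) (n : ℕ) (β β' : ℕ → ℕ → ℂ) (p k : ℕ) :
    ps (Finset.range (n + n)) (bt2 t n β β') p k =
      ((p : ℂ) ^ (-(t * I))) ^ k * ps (Finset.range n) β p k +
        ((p : ℂ) ^ (t * I)) ^ k * ps (Finset.range n) β' p k := by
  unfold ps
  rw [sum_bt2 t n β β' p fun x => x ^ k, Finset.mul_sum, Finset.mul_sum]
  congr 1
  · refine Finset.sum_congr rfl fun i _ => ?_
    rw [mul_pow]
    ring
  · refine Finset.sum_congr rfl fun i _ => ?_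
    rw [mul_pow]
    ring

theorem bt2_le {t : ℝ} {n : ℕ} {β β' : ℕ → ℕ → ℂ} {p : ℕ} (hp : 0 < p) {ρ : ℝ}
    (h : ∀ i < n, ‖β p i‖ ≤ ρ ∧ ‖β' p i‖ ≤ ρ) : ∀ i ∈ Finset.range (n + n),
    ‖bt2 t n β β' p i‖ ≤ ρ := by
  intro i hi
  rw [Finset.mem_range] at hi
  unfold bt2
  split_ifs with h1
  · rw [norm_mul, norm_pit' hp, mul_one]
    exact (h i h1).1
  · rw [norm_mul, norm_pit hp, mul_one]
    exact (h (i - n) (by omega)).2

theorem bt2_bnd {S : Finset ℕ} {t : ℝ} {n : ℕ} {β β' : ℕ → ℕ → ℂ} {M ρ : ℝ} (hρ : 1 ≤ ρ)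
    (hn : ((n + n : ℕ) : ℝ) ≤ M) (hβ : ∀ p : PS S, ∀ i < n, ‖β p i‖ ≤ ρ ∧ ‖β' p i‖ ≤ ρ)
    (hlarge : ∀ p : PS S, 4 * ρ ^ 2 ≤ (p : ℕ)) :
    Bnd S (ps (Finset.range (n + n)) (bt2 t n β β')) M ρ := by
  refine ⟨(Nat.cast_nonneg _).trans hn, hρ, fun p k => ?_, hlarge⟩
  unfold ps
  refine (norm_sum_le _ _).trans ?_
  have h2 : ∀ i ∈ Finset.range (n + n), ‖bt2 t n β β' p i ^ k‖ ≤ ρ ^ k := by
    intro i hi
    rw [norm_pow]
    have h3 := bt2_le (t := t) p.2.1.pos (hβ p) i hi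
    gcongr
  refine (Finset.sum_le_card_nsmul _ _ _ h2).trans ?_
  rw [nsmul_eq_mul, Finset.card_range]
  gcongr

theorem shm_zero (μ : List ℂ) : shm 0 μ = μ := by
  unfold shm
  simp

theorem mo_app (μ ν : List ℂ) (z : ℂ) : mo (gi (μ ++ ν)) z = mo (gi μ) z + mo (gi ν) z := by
  rw [mo_gi, mo_gi, mo_gi, List.map_append, List.sum_append]

/-- **the relation principle**: a real relation between the traces at all primes outside a sparse set and
between the traces of the duals passes to all powers at all unramified primes, and to the archimedean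
parameters. -/
theorem rel_pair {J : Type*} [Fintype J] [Nonempty J] {S S₁ : Finset ℕ} {n : J → ℕ}
    {β β' : J → ℕ → ℕ → ℂ} {μ μ' : J → List ℂ} {N D N' D' : J → ℂ → ℂ} {c : J → ℝ} {M ρ : ℝ}
    {T : Set ℕ} (hTs : Sparse T) (hL : ∀ j, Half S (n j) (β j) (N j) (D j)) (hL' : ∀ j, Half S (n j) (β' j) (N' j) (D' j))
    (hF : ∀ j, FEq S (μ j) (μ' j) (N j) (D j) (N' j) (D' j)) (hSS : S ⊆ S₁) (hρ : 1 ≤ ρ)
    (hn : ∀ j, ((n j + n j : ℕ) : ℝ) ≤ M)
    (hβ : ∀ j, ∀ p : PS S₁, ∀ i < n j, ‖β j p i‖ ≤ ρ ∧ ‖β' j p i‖ ≤ ρ)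
    (hlarge : ∀ p : PS S₁, 4 * ρ ^ 2 ≤ (p : ℕ))
    (hinv : ∀ j, ∀ p : ℕ, p.Prime → p ∉ S → ∀ i < n j, β' j p i = (β j p i)⁻¹)
    (hrel : ∀ p : PS S₁, (p : ℕ) ∉ T → ∑ j, (c j : ℂ) * ps (Finset.range (n j)) (β j) p 1 = 0)
    (hrel' : ∀ p : PS S₁, (p : ℕ) ∉ T →
      ∑ j, (c j : ℂ) * ps (Finset.range (n j)) (β' j) p 1 = 0) :
    (∀ p : ℕ, p.Prime → p ∉ S → ∀ k : ℕ,
      ∑ j, (c j : ℂ) * ps (Finset.range (n j)) (β j) p (k + 1) = 0) ∧
    ∀ z : ℂ, ∑ j, c j * (((mo (gi (μ j)) (1 - z) : ℝ) + mo (gi (μ' j)) (1 - z)) -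
      (mo (gi (μ j)) z + mo (gi (μ' j)) z)) = 0 := by
  classical
  have key : ∀ t : ℝ, (∀ p : ℕ, p.Prime → p ∉ S → ∀ k : ℕ, ∑ j, (c j : ℂ) *
      ps (Finset.range (n j + n j)) (bt2 t (n j) (β j) (β' j)) p (k + 1) = 0) ∧
      ∀ z : ℂ, ∑ j, c j * ((mo (gi (shm (t * I) (μ j) ++ shm (-(t * I)) (μ' j))) (1 - z) : ℝ) -
        mo (gi (shm (t * I) (μ j) ++ shm (-(t * I)) (μ' j))) z) = 0 := by
    intro t
    have hLG := fun j => (hL j).pair (hL' j) (hF j) t
    have hbd := fun j => bt2_bnd (t := t) hρ (hn j) (hβ j) hlarge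
    have hle : ∀ j, ∀ p : PS S₁, ∀ i ∈ Finset.range (n j + n j),
        ‖bt2 t (n j) (β j) (β' j) p i‖ ≤ ρ := fun j p i hi => bt2_le p.2.1.pos (hβ j p) i hi
    refine rel_all (S₁ := S₁) (M := M) (ρ := ρ) hLG hSS hbd hle
      (fun p => zero3 (c := c) (fun j => (hLG j).toLF0 hSS (hbd j) (hle j)) hbd hTs
        (fun p hpT => ?_) p) (fun j p hp hpS x hx => ?_)
    · unfold GG
      simp only [ps_bt2, mul_add, Finset.sum_add_distrib]
      have h1 := hrel p hpT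
      have h2 := hrel' p hpT
      have e1 : ∑ j, (c j : ℂ) * ((((p : ℕ) : ℂ) ^ (-(t * I))) ^ 1 *
          ps (Finset.range (n j)) (β j) p 1) = (((p : ℕ) : ℂ) ^ (-(t * I))) ^ 1 *
          ∑ j, (c j : ℂ) * ps (Finset.range (n j)) (β j) p 1 := by
        rw [Finset.mul_sum]
        exact Finset.sum_congr rfl fun j _ => by ring
      have e2 : ∑ j, (c j : ℂ) * ((((p : ℕ) : ℂ) ^ (t * I)) ^ 1 *
          ps (Finset.range (n j)) (β' j) p 1) = (((p : ℕ) : ℂ) ^ (t * I)) ^ 1 *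
          ∑ j, (c j : ℂ) * ps (Finset.range (n j)) (β' j) p 1 := by
        rw [Finset.mul_sum]
        exact Finset.sum_congr rfl fun j _ => by ring
      rw [e1, e2, h1, h2, mul_zero, mul_zero, add_zero]
    · have hp0 : (p : ℂ) ≠ 0 := by exact_mod_cast hp.ne_zero
      rw [sum_bt2 t (n j) (β j) (β' j) p fun y => if y = x then (1 : ℝ) else 0,
        sum_bt2 t (n j) (β j) (β' j) p fun y => if y = x⁻¹ then (1 : ℝ) else 0, add_comm]
      have hinv' : ∀ i ∈ Finset.range (n j), β' j p i * (p : ℂ) ^ (t * I) =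
          (β j p i * (p : ℂ) ^ (-(t * I)))⁻¹ := by
        intro i hi
        rw [hinv j p hp hpS i (Finset.mem_range.1 hi), cpow_neg, mul_inv, inv_inv]
      congr 1
      · refine Finset.sum_congr rfl fun i hi => ?_
        rw [hinv' i hi]
        congr 1
        rw [eq_iff_iff, inv_eq_iff_eq_inv]
      · refine Finset.sum_congr rfl fun i hi => ?_
        rw [hinv' i hi]
        congr 1
        rw [eq_iff_iff, inv_inj]
  refine ⟨fun p hp hpS k => ?_, fun z => ?_⟩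
  · have hp0 : (p : ℂ) ≠ 0 := by exact_mod_cast hp.ne_zero
    have hlog : 0 < Real.log p := Real.log_pos (by exact_mod_cast hp.one_lt)
    set X := ∑ j, (c j : ℂ) * ps (Finset.range (n j)) (β j) p (k + 1) with hX
    set Y := ∑ j, (c j : ℂ) * ps (Finset.range (n j)) (β' j) p (k + 1) with hY
    have h1 : ∀ t : ℝ, ((p : ℂ) ^ (-(t * I))) ^ (k + 1) * X + ((p : ℂ) ^ (t * I)) ^ (k + 1) * Y = 0 := by
      intro t
      have h2 := (key t).1 p hp hpS k
      simp only [ps_bt2, mul_add, Finset.sum_add_distrib] at h2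
      rw [hX, hY, Finset.mul_sum, Finset.mul_sum, ← h2]
      congr 1
      · exact Finset.sum_congr rfl fun j _ => by ring
      · exact Finset.sum_congr rfl fun j _ => by ring
    have h0 := h1 0
    simp only [ofReal_zero, zero_mul, neg_zero, cpow_zero, one_pow, one_mul] at h0
    have h2 := h1 (Real.pi / (2 * (k + 1) * Real.log p))
    have e1 : ((p : ℂ) ^ ((Real.pi / (2 * (k + 1) * Real.log p) : ℝ) * I)) ^ (k + 1) = I := by
      rw [← cpow_nat_mul, cpow_def_of_ne_zero hp0, ← natCast_log]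
      have : ((Real.log p : ℝ) : ℂ) * (((k + 1 : ℕ) : ℂ) *
          (((Real.pi / (2 * (k + 1) * Real.log p) : ℝ) : ℂ) * I)) = Real.pi / 2 * I := by
        have hl : ((Real.log p : ℝ) : ℂ) ≠ 0 := by exact_mod_cast hlog.ne'
        have hk : ((k : ℂ) + 1) ≠ 0 := by exact_mod_cast Nat.succ_ne_zero k
        push_cast
        have hlp : Complex.log (p : ℂ) = ((Real.log p : ℝ) : ℂ) := by rw [natCast_log]
        rw [hlp]
        field_simp
      rw [this, exp_pi_div_two_mul_I]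
    have e2 : ((p : ℂ) ^ (-((Real.pi / (2 * (k + 1) * Real.log p) : ℝ) * I))) ^ (k + 1) = -I := by
      rw [cpow_neg, inv_pow, e1, inv_I]
    rw [e1, e2] at h2
    have h3 : X = Y := by
      have h4 : I * (Y - X) = 0 := by linear_combination h2
      rcases mul_eq_zero.1 h4 with h5 | h5
      · exact absurd h5 I_ne_zero
      · exact (sub_eq_zero.1 h5).symm
    rw [← h3] at h0
    have h4 : 2 * X = 0 := by linear_combination h0
    simpa using h4
  · have h1 := (key 0).2 z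
    simp only [ofReal_zero, zero_mul, neg_zero, shm_zero, mo_app] at h1
    push_cast at h1
    exact h1

end Pool.Agent.U253.EEA
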